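import Mathlib

/-! # H55L: the q-th power of a derivation in characteristic q -/

open Polynomial

namespace H55L

section leib

variable {L : Type*} [CommRing L]

/-- Leibniz' formula. -/
theorem leib (D : Derivation ℤ L L) (n : ℕ) (u v : L) :
    D^[n] (u * v) = ∑ ij ∈ Finset.HasAntidiagonal.antidiagonal n, n.choose ij.1 • (D^[ij.1] u * D^[ij.2] v) := by
  induction n with
  | zero => simp
  | succ n ih =>
    rw [Finset.sum_antidiagonal_choose_succ_nsmul (M := L) (fun i j => D^[i] u * D^[j] v) n]
    simp only [Function.iterate_succ_apply', ih, map_sum, map_nsmul, Derivation.leibniz, smul_eq_mul, smul_add, Finset.sum_add_distrib]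
    congr 1
    refine Finset.sum_congr rfl fun ij hij => ?_
    rw [Finset.HasAntidiagonal.mem_antidiagonal] at hij
    rw [mul_comm, Nat.choose_symm_of_eq_add hij.symm]

theorem iter_zero (D : Derivation ℤ L L) (n : ℕ) : D^[n] (0 : L) = 0 := by
  induction n with
  | zero => rfl
  | succ n ih => rw [Function.iterate_succ_apply', ih, map_zero]

theorem iter_add (D : Derivation ℤ L L) (n : ℕ) (u v : L) : D^[n] (u + v) = D^[n] u + D^[n] v := by
  induction n with
  | zero => rfl
  | succ n ih => rw [Function.iterate_succ_apply', ih, map_add, Function.iterate_succ_apply', Function.iterate_succ_apply']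

theorem pow_mul' {q : ℕ} (hq : q.Prime) [CharP L q] (D : Derivation ℤ L L) (u v : L) :
    D^[q] (u * v) = u * D^[q] v + v * D^[q] u := by
  obtain ⟨m, rfl⟩ : ∃ m, q = m + 1 := ⟨q - 1, by have := hq.pos; omega⟩
  rw [leib, Finset.Nat.sum_antidiagonal_eq_sum_range_succ_mk, Finset.sum_range_succ, Finset.sum_range_succ']
  have h1 : ∑ k ∈ Finset.range m, (m + 1).choose (k + 1) • (D^[k + 1] u * D^[m + 1 - (k + 1)] v) = 0 := by
    refine Finset.sum_eq_zero fun k hk => ?_
    rw [Finset.mem_range] at hk
    rw [nsmul_eq_mul]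
    have h2 : m + 1 ∣ (m + 1).choose (k + 1) := hq.dvd_choose_self (Nat.succ_ne_zero k) (by omega)
    rw [(CharP.cast_eq_zero_iff L (m + 1) _).2 h2, zero_mul]
  simp only [h1, Nat.choose_zero_right, Nat.choose_self, one_smul, Nat.sub_zero, Nat.sub_self, Function.iterate_zero, id]
  ring

/-- In characteristic q the q-th power of a derivation is a derivation. -/
theorem exists_pow {q : ℕ} (hq : q.Prime) [CharP L q] (D : Derivation ℤ L L) : ∃ E : Derivation ℤ L L, ∀ u, E u = D^[q] u := by
  let A : L →+ L := ⟨⟨fun u => D^[q] u, iter_zero D q⟩, iter_add D q⟩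
  exact ⟨Derivation.mk' A.toIntLinearMap (fun u v => by
    show D^[q] (u * v) = u • D^[q] v + v • D^[q] u
    rw [pow_mul' hq, smul_eq_mul, smul_eq_mul]), fun u => rfl⟩

end leib

end H55L
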