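import Mathlib
import Pool.Agent.Lib.H55L.B0

/-! # H55L: the q-curvature of the invariant derivation of an elliptic curve with complex multiplication

L is a field of characteristic q with a derivation D, k a subfield of constants; x, y in L with y^2 = f(x), D x = 2 y, D y = f'(x), f = X^3 + a X^2 + c X,
x transcendental over k. If there is a rational function R = NN/DD with f R'^2 = al^2 f(R), R' ≠ 0, al^q ≠ al, then D^q x = D^q y = 0. -/

open Polynomial

namespace H55L

/-- The cubic polynomial. -/
noncomputable def cub {k : Type*} [CommRing k] (a c : k) : k[X] := X ^ 3 + C a * X ^ 2 + C c * X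

section gh

variable {k : Type*} [CommRing k] (a c : k)

/-- D^(2m) x = g_m(x), D^(2m+1) x = 2 y g_m'(x). -/
noncomputable def gm : ℕ → k[X]
  | 0 => X
  | m + 1 => 2 * derivative (cub a c) * derivative (gm m) + 4 * cub a c * derivative (derivative (gm m))

theorem cub_deg : (cub a c).natDegree ≤ 3 := by
  unfold cub
  compute_degree

theorem gm_deg (m : ℕ) : (gm a c m).natDegree ≤ m + 1 := by
  induction m with
  | zero => exact natDegree_X_le
  | succ m ih =>
    have h1 := natDegree_derivative_le (gm a c m)
    have h2 := natDegree_derivative_le (derivative (gm a c m))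
    have h3 := cub_deg a c
    have h4 := natDegree_derivative_le (cub a c)
    unfold gm
    refine (natDegree_add_le _ _).trans (max_le ?_ ?_)
    · refine natDegree_mul_le.trans ?_
      have h5 : (2 * derivative (cub a c)).natDegree ≤ 2 := by
        refine natDegree_mul_le.trans ?_
        have : (2 : k[X]).natDegree = 0 := natDegree_ofNat 2
        omega
      omega
    · by_cases h6 : derivative (derivative (gm a c m)) = 0
      · rw [h6, mul_zero, natDegree_zero]
        exact Nat.zero_le _
      · refine natDegree_mul_le.trans ?_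
        have h5 : (4 * cub a c).natDegree ≤ 3 := by
          refine natDegree_mul_le.trans ?_
          have : (4 : k[X]).natDegree = 0 := natDegree_ofNat 4
          omega
        have h7 : 2 ≤ (gm a c m).natDegree := by
          by_contra hcon
          apply h6
          have h8 : (gm a c m).natDegree < 2 := by omega
          exact iterate_derivative_eq_zero (x := 2) h8
        omega

variable {L : Type*} [CommRing L] [Algebra k L] (D : Derivation ℤ L L) (hk : ∀ r : k, D (algebraMap k L r) = 0)

include hk in
/-- The chain rule for polynomials. -/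
theorem der_aeval (x : L) (g : k[X]) : D (aeval x g) = aeval x (derivative g) * D x := by
  induction g using Polynomial.induction_on' with
  | add p q hp hq => rw [map_add, map_add, hp, hq, map_add, map_add, add_mul]
  | monomial n r =>
    rw [aeval_monomial, derivative_monomial, aeval_monomial, Derivation.leibniz, hk, smul_zero, add_zero, Derivation.leibniz_pow,
      smul_eq_mul, map_mul, map_natCast, nsmul_eq_mul, smul_eq_mul]
    ring

include hk in
/-- The iterates of D on x. -/
theorem iter_x {x y al : L} (hal : D al = 0) (hx : D x = al * (2 * y)) (hy : D y = al * aeval x (derivative (cub a c)))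
    (hxy : y ^ 2 = aeval x (cub a c)) (m : ℕ) :
    D^[2 * m] x = al ^ (2 * m) * aeval x (gm a c m) ∧
      D^[2 * m + 1] x = al ^ (2 * m + 1) * (2 * y * aeval x (derivative (gm a c m))) := by
  have hstep : ∀ m, D^[2 * m] x = al ^ (2 * m) * aeval x (gm a c m) →
      D^[2 * m + 1] x = al ^ (2 * m + 1) * (2 * y * aeval x (derivative (gm a c m))) := by
    intro m h
    rw [Function.iterate_succ_apply', h, Derivation.leibniz, der_aeval D hk, hx, Derivation.leibniz_pow, hal]
    simp only [smul_eq_mul, mul_zero, smul_zero, add_zero]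
    ring
  induction m with
  | zero =>
    have h0 : D^[2 * 0] x = al ^ (2 * 0) * aeval x (gm a c 0) := by
      rw [mul_zero, pow_zero, one_mul]
      exact (aeval_X x).symm
    exact ⟨h0, hstep 0 h0⟩
  | succ m ih =>
    have h1 : D^[2 * (m + 1)] x = al ^ (2 * (m + 1)) * aeval x (gm a c (m + 1)) := by
      rw [show 2 * (m + 1) = (2 * m + 1) + 1 by ring, Function.iterate_succ_apply', ih.2]
      have h2 : D (2 : L) = 0 := by
        have := D.map_natCast 2
        exact_mod_cast this
      rw [Derivation.leibniz, Derivation.leibniz, Derivation.leibniz, Derivation.leibniz_pow, hal, h2, der_aeval D hk, hx, hy]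
      have hg : gm a c (m + 1) = 2 * derivative (cub a c) * derivative (gm a c m) + 4 * cub a c * derivative (derivative (gm a c m)) := rfl
      have e2 : aeval x (2 : k[X]) = (2 : L) := map_ofNat _ 2
      have e4 : aeval x (4 : k[X]) = (4 : L) := map_ofNat _ 4
      rw [hg, map_add, map_mul, map_mul, map_mul, map_mul, e2, e4, ← hxy]
      simp only [smul_eq_mul, mul_zero, smul_zero, add_zero]
      ring
    exact ⟨h1, hstep _ h1⟩

end gh

section main

variable {k : Type*} [Field k] {a c : k} {L : Type*} [Field L] [Algebra k L]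

/-- A rational function of x with the differential equation. -/
structure Mult (a c al : k) (NN DD : k[X]) : Prop where
  wr : derivative NN * DD - NN * derivative DD ≠ 0
  eq : cub a c * (derivative NN * DD - NN * derivative DD) ^ 2 =
    C al ^ 2 * DD * (NN ^ 3 + C a * NN ^ 2 * DD + C c * NN * DD ^ 2)

/-- THE q-CURVATURE IS ZERO. -/
theorem curv {q : ℕ} (hq : q.Prime) (h2 : q ≠ 2) [CharP L q] (D : Derivation ℤ L L) (hk : ∀ r : k, D (algebraMap k L r) = 0) {x y : L}
    (hx : D x = 2 * y) (hy : D y = aeval x (derivative (cub a c))) (hxy : y ^ 2 = aeval x (cub a c))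
    (htr : ∀ g : k[X], aeval x g = 0 → g = 0) {al : k} (hal : al ^ q ≠ al) {NN DD : k[X]} (hM : Mult a c al NN DD) :
    D^[q] x = 0 ∧ D^[q] y = 0 := by
  have hCk : CharP k q := (algebraMap k L).charP (algebraMap k L).injective q
  have hal0 : al ≠ 0 := by
    rintro rfl
    exact hal (zero_pow hq.ne_zero)
  have hL2 : (2 : L) ≠ 0 := by
    intro h
    have h1 : ((2 : ℕ) : L) = 0 := by exact_mod_cast h
    rw [CharP.cast_eq_zero_iff L q] at h1
    exact h2 ((Nat.prime_dvd_prime_iff_eq hq Nat.prime_two).1 h1)
  have hf0 : cub a c ≠ 0 := by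
    intro h
    have h1 := congrArg (fun g => coeff g 3) h
    unfold cub at h1
    simp at h1
  have hy0 : y ≠ 0 := by
    intro h
    rw [h, zero_pow two_ne_zero] at hxy
    exact hf0 (htr _ hxy.symm)
  obtain ⟨m, hm⟩ : ∃ m, q = 2 * m + 1 := hq.odd_of_ne_two h2
  obtain ⟨E, hE⟩ := exists_pow hq D
  obtain ⟨h, hh⟩ : ∃ h : k[X], h = derivative (gm a c m) := ⟨_, rfl⟩
  have hEk : ∀ r : k, E (algebraMap k L r) = 0 := by
    intro r
    rw [hE, hm, Function.iterate_succ_apply, hk]
    exact iter_zero D _
  -- the value on x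
  have hEx : E x = 2 * y * aeval x h := by
    have h1 := (iter_x a c D hk (x := x) (y := y) (al := 1) (by exact D.map_one_eq_zero) (by rw [one_mul, hx]) (by rw [one_mul, hy]) hxy m).2
    rw [one_pow, one_mul, ← hm, ← hE, ← hh] at h1
    exact h1
  have hEy : E y = aeval x (derivative (cub a c)) * aeval x h := by
    have h1 : E (y ^ 2) = E (aeval x (cub a c)) := by rw [hxy]
    rw [der_aeval E hEk, hEx, sq, Derivation.leibniz, smul_eq_mul] at h1
    have h3 : 2 * y ≠ 0 := mul_ne_zero hL2 hy0
    refine mul_left_cancel₀ h3 ?_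
    linear_combination h1
  have hcomm : E (D x) = D (E x) := by
    rw [hE, hE]
    exact (Function.iterate_succ_apply D q x).symm.trans (Function.iterate_succ_apply' D q x)
  have hE2 : E (2 : L) = 0 := by
    have := E.map_natCast 2
    exact_mod_cast this
  have hD2 : D (2 : L) = 0 := by
    have := D.map_natCast 2
    exact_mod_cast this
  have hder : derivative h = 0 := by
    apply htr
    rw [hEx, hx, Derivation.leibniz, Derivation.leibniz, Derivation.leibniz, hE2, hD2, hEy, hy, der_aeval D hk, hx] at hcomm
    simp only [smul_eq_mul, mul_zero, add_zero] at hcomm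
    have h3 : 4 * y ^ 2 * aeval x (derivative h) = 0 := by linear_combination -hcomm
    have h4 : (4 : L) * y ^ 2 ≠ 0 := mul_ne_zero (by
      have : (4 : L) = 2 * 2 := by norm_num
      rw [this]
      exact mul_ne_zero hL2 hL2) (pow_ne_zero 2 hy0)
    exact (mul_eq_zero.1 h3).resolve_left h4
  have hconst : h = C (h.coeff 0) := by
    have hdeg : h.natDegree < q := by
      have h1 := natDegree_derivative_le (gm a c m)
      have h3 := gm_deg a c m
      rw [hh]
      omega
    ext n
    rw [coeff_C]
    split_ifs with hn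
    · rw [hn]
    · by_contra hne
      have h1 : n ≤ h.natDegree := le_natDegree_of_ne_zero hne
      obtain ⟨n', rfl⟩ : ∃ n', n = n' + 1 := ⟨n - 1, by omega⟩
      have h3 := congrArg (fun g => coeff g n') hder
      simp only [coeff_derivative, coeff_zero] at h3
      have h4 := (mul_eq_zero.1 h3).resolve_left hne
      have h5 : ((n' + 1 : ℕ) : k) = 0 := by exact_mod_cast h4
      rw [CharP.cast_eq_zero_iff k q] at h5
      have h6 := Nat.le_of_dvd (Nat.succ_pos _) h5
      omega
  obtain ⟨η, hη⟩ : ∃ η, η = h.coeff 0 := ⟨_, rfl⟩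
  rw [← hη] at hconst
  have hExη : E x = 2 * y * algebraMap k L η := by rw [hEx, hconst, aeval_C]
  -- the multiplication
  obtain ⟨W, hW⟩ : ∃ W : k[X], W = derivative NN * DD - NN * derivative DD := ⟨_, rfl⟩
  have hMw := hM.wr
  have hMe := hM.eq
  rw [← hW] at hMw hMe
  have hDD : DD ≠ 0 := by
    rintro rfl
    rw [derivative_zero, mul_zero, mul_zero, sub_zero] at hW
    exact hMw hW
  have hd0 : aeval x DD ≠ 0 := fun h0 => hDD (htr _ h0)
  have hw0 : aeval x W ≠ 0 := fun h0 => hMw (htr _ h0)
  have hα0 : algebraMap k L al ≠ 0 := by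
    rw [Ne, map_eq_zero]
    exact hal0
  obtain ⟨x1, hx1⟩ : ∃ x1, x1 = aeval x NN / aeval x DD := ⟨_, rfl⟩
  obtain ⟨y1, hy1⟩ : ∃ y1, y1 = y * aeval x W / (algebraMap k L al * aeval x DD ^ 2) := ⟨_, rfl⟩
  have hx1m : x1 * aeval x DD = aeval x NN := by rw [hx1, div_mul_cancel₀ _ hd0]
  have hy1m : y1 * (algebraMap k L al * aeval x DD ^ 2) = y * aeval x W := by
    rw [hy1, div_mul_cancel₀ _ (mul_ne_zero hα0 (pow_ne_zero 2 hd0))]
  have hy10 : y1 ≠ 0 := by
    intro h0
    rw [h0, zero_mul] at hy1m
    exact mul_ne_zero hy0 hw0 hy1m.symm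
  have hWL : aeval x W = aeval x (derivative NN) * aeval x DD - aeval x NN * aeval x (derivative DD) := by
    rw [hW, map_sub, map_mul, map_mul]
  -- derivations of x1
  have hder1 : ∀ G : Derivation ℤ L L, (∀ r : k, G (algebraMap k L r) = 0) → aeval x DD ^ 2 * G x1 = aeval x W * G x := by
    intro G hG
    have h1 := congrArg G hx1m
    rw [Derivation.leibniz, der_aeval G hG, der_aeval G hG, smul_eq_mul, smul_eq_mul] at h1
    rw [hWL]
    linear_combination aeval x DD * h1 - aeval x (derivative DD) * G x * hx1m
  have hDx1 : D x1 = algebraMap k L al * (2 * y1) := by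
    have h1 := hder1 D hk
    rw [hx] at h1
    refine mul_left_cancel₀ (pow_ne_zero 2 hd0) ?_
    linear_combination h1 - 2 * hy1m
  have hxy1 : y1 ^ 2 = aeval x1 (cub a c) := by
    have h1 := congrArg (aeval x) hMe
    simp only [map_mul, map_pow, map_add, aeval_C] at h1
    have h3 : aeval x1 (cub a c) = x1 ^ 3 + algebraMap k L a * x1 ^ 2 + algebraMap k L c * x1 := by
      unfold cub
      simp only [map_mul, map_pow, map_add, aeval_C, aeval_X]
    rw [h3]
    refine mul_left_cancel₀ (pow_ne_zero 2 (mul_ne_zero hα0 (pow_ne_zero 2 hd0))) ?_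
    rw [← hxy, ← hx1m] at h1
    linear_combination (y1 * (algebraMap k L al * aeval x DD ^ 2) + y * aeval x W) * hy1m + h1
  have hDy1 : D y1 = algebraMap k L al * aeval x1 (derivative (cub a c)) := by
    have h1 : D (y1 ^ 2) = D (aeval x1 (cub a c)) := by rw [hxy1]
    rw [der_aeval D hk, hDx1, sq, Derivation.leibniz, smul_eq_mul] at h1
    refine mul_left_cancel₀ (mul_ne_zero hL2 hy10) ?_
    linear_combination h1
  have hEx1 : E x1 = algebraMap k L al ^ q * (2 * y1 * algebraMap k L η) := by
    have h1 := (iter_x a c D hk (x := x1) (y := y1) (al := algebraMap k L al) (hk al) hDx1 hDy1 hxy1 m).2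
    rw [← hm, ← hE, ← hh, hconst, aeval_C] at h1
    exact h1
  have hη0 : η = 0 := by
    have h1 := hder1 E hEk
    rw [hEx1, hExη] at h1
    have h3 : (algebraMap k L al ^ q - algebraMap k L al) * (2 * y1 * aeval x DD ^ 2) * algebraMap k L η = 0 := by
      linear_combination h1 - 2 * algebraMap k L η * hy1m
    rcases mul_eq_zero.1 h3 with h4 | h4
    · exfalso
      rcases mul_eq_zero.1 h4 with h5 | h5
      · rw [← map_pow, sub_eq_zero] at h5
        exact hal ((algebraMap k L).injective h5)
      · exact mul_ne_zero (mul_ne_zero hL2 hy10) (pow_ne_zero 2 hd0) h5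
    · exact (map_eq_zero _).1 h4
  refine ⟨?_, ?_⟩
  · rw [← hE, hExη, hη0, map_zero, mul_zero]
  · rw [← hE, hEy, hconst, aeval_C, hη0, map_zero, mul_zero]

end main

end H55L
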