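import Mathlib
import Pool.Agent.Lib.H55L.B01

/-! # H55L: extension of a derivation to the field of fractions -/

open Polynomial

namespace H55L

section ext

variable {A : Type*} [CommRing A] [IsDomain A] {L : Type*} [Field L] [Algebra A L] [IsFractionRing A L]

theorem exists_ext (D : Derivation ℤ A A) : ∃ E : Derivation ℤ L L, ∀ a, E (algebraMap A L a) = algebraMap A L (D a) := by
  classical
  let φ : A →+* TrivSqZeroExt L L :=
    { toFun := fun a => TrivSqZeroExt.inl (algebraMap A L a) + TrivSqZeroExt.inr (algebraMap A L (D a))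
      map_one' := by
        rw [D.map_one_eq_zero, map_zero, map_one, TrivSqZeroExt.inr_zero, add_zero, TrivSqZeroExt.inl_one]
      map_zero' := by
        rw [map_zero, map_zero, map_zero, TrivSqZeroExt.inr_zero, add_zero, TrivSqZeroExt.inl_zero]
      map_mul' := by
        intro x y
        refine TrivSqZeroExt.ext ?_ ?_
        · simp only [TrivSqZeroExt.fst_add, TrivSqZeroExt.fst_mul, TrivSqZeroExt.fst_inl, TrivSqZeroExt.fst_inr, map_mul, add_zero]
        · simp only [TrivSqZeroExt.snd_add, TrivSqZeroExt.snd_mul, TrivSqZeroExt.fst_add, TrivSqZeroExt.fst_inl,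
            TrivSqZeroExt.fst_inr, TrivSqZeroExt.snd_inl, TrivSqZeroExt.snd_inr, map_mul, Derivation.leibniz, smul_eq_mul, map_add,
            add_zero, zero_add, MulOpposite.smul_eq_mul_unop, MulOpposite.unop_op]
          ring
      map_add' := by
        intro x y
        refine TrivSqZeroExt.ext ?_ ?_
        · simp only [TrivSqZeroExt.fst_add, TrivSqZeroExt.fst_inl, TrivSqZeroExt.fst_inr, map_add, add_zero]
        · simp only [TrivSqZeroExt.snd_add, TrivSqZeroExt.snd_inl, TrivSqZeroExt.snd_inr, map_add, zero_add] }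
  have hφ1 : ∀ a, (φ a).fst = algebraMap A L a := fun a => by
    show (TrivSqZeroExt.inl (algebraMap A L a) + TrivSqZeroExt.inr (algebraMap A L (D a))).fst = _
    rw [TrivSqZeroExt.fst_add, TrivSqZeroExt.fst_inl, TrivSqZeroExt.fst_inr, add_zero]
  have hφ2 : ∀ a, (φ a).snd = algebraMap A L (D a) := fun a => by
    show (TrivSqZeroExt.inl (algebraMap A L a) + TrivSqZeroExt.inr (algebraMap A L (D a))).snd = _
    rw [TrivSqZeroExt.snd_add, TrivSqZeroExt.snd_inl, TrivSqZeroExt.snd_inr, zero_add]
  have hu : ∀ y : nonZeroDivisors A, IsUnit (φ y) := by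
    intro y
    rw [TrivSqZeroExt.isUnit_iff_isUnit_fst, hφ1, isUnit_iff_ne_zero, Ne,
      map_eq_zero_iff _ (IsFractionRing.injective A L)]
    exact nonZeroDivisors.ne_zero y.2
  let ψ : L →+* TrivSqZeroExt L L := IsLocalization.lift hu
  have hψ : ∀ a, ψ (algebraMap A L a) = φ a := fun a => IsLocalization.lift_eq hu a
  have hfst : ∀ x, (ψ x).fst = x := by
    intro x
    obtain ⟨a, b, hb, rfl⟩ := IsFractionRing.div_surjective (A := A) x
    have hb0 : algebraMap A L b ≠ 0 := by
      rw [Ne, map_eq_zero_iff _ (IsFractionRing.injective A L)]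
      exact nonZeroDivisors.ne_zero hb
    have h1 : ψ (algebraMap A L a / algebraMap A L b) * ψ (algebraMap A L b) = ψ (algebraMap A L a) := by
      rw [← map_mul, div_mul_cancel₀ _ hb0]
    have h2 := congrArg TrivSqZeroExt.fst h1
    rw [TrivSqZeroExt.fst_mul, hψ, hψ, hφ1, hφ1] at h2
    rw [eq_div_iff hb0]
    exact h2
  let F : L →+ L := ⟨⟨fun x => (ψ x).snd, by rw [map_zero, TrivSqZeroExt.snd_zero]⟩, fun x y => by
    show (ψ (x + y)).snd = (ψ x).snd + (ψ y).snd
    rw [map_add, TrivSqZeroExt.snd_add]⟩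
  refine ⟨Derivation.mk' F.toIntLinearMap (fun u v => ?_), fun a => ?_⟩
  · show (ψ (u * v)).snd = u • (ψ v).snd + v • (ψ u).snd
    rw [map_mul, TrivSqZeroExt.snd_mul, hfst, hfst]
    simp only [MulOpposite.smul_eq_mul_unop, MulOpposite.unop_op, smul_eq_mul]
    ring
  · show (ψ (algebraMap A L a)).snd = _
    rw [hψ, hφ2]

end ext

end H55L
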