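import Mathlib
import Pool.Agent.Lib.H55L.B02

/-! # H55L: the invariant derivation on power series; in characteristic q its q-th power is zero -/

open PowerSeries

namespace H55L

section ser

variable {R : Type*} [CommRing R]

/-- The equation of v. -/
def IsV (a c : R) (v : R⟦X⟧) : Prop := v = X ^ 2 * (1 + C a * v + C c * v ^ 2)

theorem eq_of_dvd_all {f g : R⟦X⟧} (h : ∀ n, (X : R⟦X⟧) ^ n ∣ f - g) : f = g := by
  rw [← sub_eq_zero]
  ext n
  have h1 := X_pow_dvd_iff.1 (h (n + 1)) n (Nat.lt_succ_self n)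
  rw [h1, map_zero]

theorem exists_v (a c : R) : ∃ v : R⟦X⟧, IsV a c v := by
  obtain ⟨Φ, hΦ⟩ : ∃ Φ : R⟦X⟧ → R⟦X⟧, ∀ w, Φ w = X ^ 2 * (1 + C a * w + C c * w ^ 2) := ⟨_, fun _ => rfl⟩
  have hc : ∀ n w w', (X : R⟦X⟧) ^ n ∣ w - w' → (X : R⟦X⟧) ^ (n + 1) ∣ Φ w - Φ w' := by
    rintro n w w' ⟨k, hk⟩
    refine ⟨X * k * (C a + C c * (w + w')), ?_⟩
    rw [hΦ, hΦ, pow_succ]
    linear_combination X ^ 2 * (C a + C c * (w + w')) * hk
  obtain ⟨w, hw⟩ : ∃ w : ℕ → R⟦X⟧, ∀ n, w n = Φ^[n] 0 := ⟨_, fun _ => rfl⟩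
  have hs : ∀ n, w (n + 1) = Φ (w n) := fun n => by rw [hw, hw, Function.iterate_succ_apply']
  have h1 : ∀ n, (X : R⟦X⟧) ^ n ∣ w (n + 1) - w n := by
    intro n
    induction n with
    | zero => rw [pow_zero]; exact one_dvd _
    | succ n ih => rw [hs (n + 1)]; nth_rw 2 [hs n]; exact hc _ _ _ ih
  have h2 : ∀ n k, (X : R⟦X⟧) ^ n ∣ w (n + k) - w n := by
    intro n k
    induction k with
    | zero => rw [add_zero, sub_self]; exact dvd_zero _
    | succ k ih =>
      have h3 : w (n + (k + 1)) - w n = (w (n + k + 1) - w (n + k)) + (w (n + k) - w n) := by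
        rw [← add_assoc]; ring
      rw [h3]
      exact dvd_add ((pow_dvd_pow _ (Nat.le_add_right n k)).trans (h1 _)) ih
  obtain ⟨v, hv⟩ : ∃ v : R⟦X⟧, v = PowerSeries.mk fun n => coeff n (w (n + 1)) := ⟨_, rfl⟩
  have h4 : ∀ n, (X : R⟦X⟧) ^ n ∣ v - w n := by
    intro n
    rw [X_pow_dvd_iff]
    intro m hm
    obtain ⟨k, rfl⟩ := Nat.exists_eq_add_of_lt hm
    have h5 := X_pow_dvd_iff.1 (h2 (m + 1) k) m (Nat.lt_succ_self m)
    rw [hv, map_sub, coeff_mk]
    rw [map_sub, sub_eq_zero] at h5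
    rw [show m + k + 1 = m + 1 + k by ring, h5, sub_self]
  refine ⟨v, ?_⟩
  unfold IsV
  rw [← hΦ]
  refine eq_of_dvd_all fun n => ?_
  have h6 : v - Φ v = (v - w (n + 1)) - (Φ v - Φ (w n)) := by rw [hs]; ring
  rw [h6]
  exact dvd_sub ((pow_dvd_pow _ (Nat.le_succ n)).trans (h4 _)) ((pow_dvd_pow _ (Nat.le_succ n)).trans (hc n _ _ (h4 n)))

/-- The factor dt/du. -/
noncomputable def tau (a c : R) (v : R⟦X⟧) : R⟦X⟧ := 1 - C a * X ^ 2 - 2 * C c * X ^ 2 * v

/-- Derivations of a commutative ring. -/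
abbrev Der (A : Type*) [CommRing A] := Derivation ℤ A A

/-- A derivation from an additive map. -/
def mkDer {A : Type*} [CommRing A] (f : A →+ A) (h : ∀ u v, f (u * v) = u * f v + v * f u) : Der A :=
  Derivation.mk' f.toIntLinearMap h

theorem mkDer_apply {A : Type*} [CommRing A] (f : A →+ A) (h : ∀ u v, f (u * v) = u * f v + v * f u) (x : A) :
    mkDer f h x = f x := rfl

theorem Der.mul {A : Type*} [CommRing A] (D : Der A) (u v : A) : D (u * v) = u * D v + v * D u := by
  rw [Derivation.leibniz, smul_eq_mul, smul_eq_mul]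

theorem Der.one {A : Type*} [CommRing A] (D : Der A) : D (1 : A) = 0 := D.map_one_eq_zero

theorem Der.pow {A : Type*} [CommRing A] (D : Der A) (u : A) (n : ℕ) : D (u ^ n) = n * u ^ (n - 1) * D u := by
  rw [Derivation.leibniz_pow, nsmul_eq_mul, smul_eq_mul, mul_assoc]

theorem Der.sq {A : Type*} [CommRing A] (D : Der A) (u : A) : D (u ^ 2) = 2 * u * D u := by
  rw [Der.pow]; norm_num

/-- The invariant derivation. -/
noncomputable def del (a c : R) (v : R⟦X⟧) : Der R⟦X⟧ :=
  mkDer ((AddMonoidHom.mulLeft (tau a c v)).comp (derivative R).toLinearMap.toAddMonoidHom) (fun F G => by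
    show tau a c v * derivative R (F * G) = F * (tau a c v * derivative R G) + G * (tau a c v * derivative R F)
    rw [Derivation.leibniz, smul_eq_mul, smul_eq_mul]
    ring)

theorem del_apply (a c : R) (v F : R⟦X⟧) : del a c v F = tau a c v * derivative R F := rfl

theorem del_C (a c : R) (v : R⟦X⟧) (r : R) : del a c v (C r) = 0 := by
  rw [del_apply, derivative_C, mul_zero]

theorem del_X (a c : R) (v : R⟦X⟧) : del a c v X = tau a c v := by
  rw [del_apply, derivative_X, mul_one]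

theorem tau_cc {a c : R} {v : R⟦X⟧} : constantCoeff (tau a c v) = 1 := by
  simp [tau]

theorem tau_reg {a c : R} {v : R⟦X⟧} : IsUnit (tau a c v) := by
  rw [PowerSeries.isUnit_iff_constantCoeff, tau_cc]
  exact isUnit_one

theorem del_v {a c : R} {v : R⟦X⟧} (hv : IsV a c v) : del a c v v = 2 * X * (1 + C a * v + C c * v ^ 2) := by
  refine (tau_reg (a := a) (c := c) (v := v)).mul_left_cancel ?_
  have h1 : del a c v v = del a c v (X ^ 2 * (1 + C a * v + C c * v ^ 2)) := congrArg _ hv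
  rw [Der.mul, Der.sq, map_add, map_add, Der.one, Der.mul, Der.mul, del_C, del_C, Der.sq, del_X] at h1
  have h2 : tau a c v = 1 - C a * X ^ 2 - 2 * C c * X ^ 2 * v := rfl
  linear_combination h1 + del a c v v * h2

theorem map_derivative {R' : Type*} [CommRing R'] (σ : R →+* R') (F : R⟦X⟧) :
    PowerSeries.map σ (derivative R F) = derivative R' (PowerSeries.map σ F) := by
  ext i
  simp [coeff_derivative]

theorem IsV.map {R' : Type*} [CommRing R'] (σ : R →+* R') {a c : R} {v : R⟦X⟧} (hv : IsV a c v) :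
    IsV (σ a) (σ c) (PowerSeries.map σ v) := by
  have h1 := congrArg (PowerSeries.map σ) hv
  simp only [map_mul, map_pow, map_add, map_one, PowerSeries.map_X, PowerSeries.map_C] at h1
  exact h1

theorem map_del {R' : Type*} [CommRing R'] (σ : R →+* R') (a c : R) (v F : R⟦X⟧) :
    PowerSeries.map σ (del a c v F) = del (σ a) (σ c) (PowerSeries.map σ v) (PowerSeries.map σ F) := by
  rw [del_apply, del_apply, map_mul, map_derivative]
  congr 1
  simp only [tau, map_mul, map_pow, map_sub, map_one, PowerSeries.map_X, PowerSeries.map_C, map_ofNat]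

theorem map_del_iter {R' : Type*} [CommRing R'] (σ : R →+* R') (a c : R) (v F : R⟦X⟧) (n : ℕ) :
    PowerSeries.map σ ((del a c v)^[n] F) = (del (σ a) (σ c) (PowerSeries.map σ v))^[n] (PowerSeries.map σ F) := by
  induction n with
  | zero => rfl
  | succ n ih => rw [Function.iterate_succ_apply', Function.iterate_succ_apply', map_del, ih]

end ser

section fld

open scoped Polynomial

variable {k : Type*} [Field k]

/-- v is not algebraic -/
theorem v_cc {a c : k} {v : k⟦X⟧} (hv : IsV a c v) : constantCoeff v = 0 := by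
  rw [hv]; simp

theorem v_ne {a c : k} {v : k⟦X⟧} (hv : IsV a c v) : v ≠ 0 := by
  intro h0
  rw [h0] at hv
  unfold IsV at hv
  have h1 := congrArg (coeff 2) hv
  simp at h1

/-- The q-th power of the invariant derivation kills X. -/
theorem del_pow_X {L : Type*} [Field L] [Algebra k⟦X⟧ L] [IsFractionRing k⟦X⟧ L] [Algebra k L]
    (hιk : ∀ r : k, algebraMap k L r = algebraMap k⟦X⟧ L (C r))
    {q : ℕ} (hq : q.Prime) (h2 : q ≠ 2) [CharP k q] {a c al : k} (hal : al ^ q ≠ al) {NN DD : k[X]}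
    (hM : Mult a c al NN DD) {v : k⟦X⟧} (hv : IsV a c v) : (del a c v)^[q] X = 0 := by
  have hCS : CharP k⟦X⟧ q := charP_of_injective_ringHom (f := (C : k →+* k⟦X⟧)) PowerSeries.C_injective q
  have hinj : Function.Injective (algebraMap k⟦X⟧ L) := IsFractionRing.injective _ _
  have hCL : CharP L q := charP_of_injective_ringHom hinj q
  obtain ⟨D, hD⟩ := exists_ext (L := L) (del a c v)
  obtain ⟨ι, hι⟩ : ∃ ι : k⟦X⟧ →+* L, ι = algebraMap _ _ := ⟨_, rfl⟩
  rw [← hι] at hinj hιk hD
  have hDk : ∀ r : k, D (algebraMap k L r) = 0 := by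
    intro r
    rw [hιk, hD, del_C, map_zero]
  have hv0 : ι v ≠ 0 := by
    intro h0
    exact v_ne hv (hinj (by rw [map_zero]; exact h0))
  have hX0 : ι X ≠ 0 := by
    intro h0
    exact X_ne_zero (hinj (by rw [map_zero]; exact h0))
  have hDX : D (ι X) = 1 - ι (C a) * ι X ^ 2 - 2 * ι (C c) * ι X ^ 2 * ι v := by
    rw [hD, del_X, tau]
    simp only [map_mul, map_pow, map_sub, map_one, map_ofNat]
  have hDv : D (ι v) = 2 * ι X * (1 + ι (C a) * ι v + ι (C c) * ι v ^ 2) := by
    rw [hD, del_v hv]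
    simp only [map_mul, map_pow, map_add, map_one, map_ofNat]
  have hve : ι v = ι X ^ 2 * (1 + ι (C a) * ι v + ι (C c) * ι v ^ 2) := by
    have h1 := congrArg ι hv
    simp only [map_mul, map_pow, map_add, map_one] at h1
    exact h1
  obtain ⟨x, hx⟩ : ∃ x, x = (ι v)⁻¹ := ⟨_, rfl⟩
  obtain ⟨y, hy⟩ : ∃ y, y = -(ι X * ι v)⁻¹ := ⟨_, rfl⟩
  have hxv : x * ι v = 1 := by rw [hx, inv_mul_cancel₀ hv0]
  have hyv : y * (ι X * ι v) = -1 := by rw [hy, neg_mul, inv_mul_cancel₀ (mul_ne_zero hX0 hv0)]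
  have hy0 : y ≠ 0 := by
    intro h0
    rw [h0, zero_mul] at hyv
    exact neg_ne_zero.2 one_ne_zero hyv.symm
  have hDx : D x = 2 * y := by
    have h1 := congrArg D hxv
    rw [Der.mul, Der.one, hDv] at h1
    refine mul_right_cancel₀ (mul_ne_zero hX0 (pow_ne_zero 2 hv0)) ?_
    linear_combination ι v * ι X * h1 - 2 * ι X ^ 2 * (1 + ι (C a) * ι v + ι (C c) * ι v ^ 2) * hxv + 2 * hve - 2 * ι v * hyv
  have hfx' : Polynomial.aeval x (Polynomial.derivative (cub a c)) = 3 * x ^ 2 + 2 * ι (C a) * x + ι (C c) := by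
    unfold cub
    simp only [Polynomial.derivative_mul, Polynomial.derivative_X_pow, Polynomial.derivative_C,
      Polynomial.derivative_X, map_add, map_mul, Polynomial.aeval_C, Polynomial.aeval_X, map_pow, hιk, Nat.cast_ofNat, mul_one,
      zero_mul, zero_add, map_ofNat]
    norm_num
    ring
  have hfx : Polynomial.aeval x (cub a c) = x ^ 3 + ι (C a) * x ^ 2 + ι (C c) * x := by
    unfold cub
    simp only [map_add, map_mul, Polynomial.aeval_C, Polynomial.aeval_X, map_pow, hιk]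
  have hDy : D y = Polynomial.aeval x (Polynomial.derivative (cub a c)) := by
    rw [hfx']
    have h1 := congrArg D hyv
    rw [Der.mul, Der.mul, map_neg, Der.one, neg_zero, hDX, hDv] at h1
    refine mul_right_cancel₀ (mul_ne_zero (pow_ne_zero 2 hX0) (pow_ne_zero 2 hv0)) ?_
    linear_combination ι X * ι v * h1 - (ι X * (2 * ι X * (1 + ι (C a) * ι v + ι (C c) * ι v ^ 2)) +
      ι v * (1 - ι (C a) * ι X ^ 2 - 2 * ι (C c) * ι X ^ 2 * ι v)) * hyv -
      (3 * ι X ^ 2 * (x * ι v + 1) + 2 * ι (C a) * ι X ^ 2 * ι v) * hxv + hve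
  have hxy : y ^ 2 = Polynomial.aeval x (cub a c) := by
    rw [hfx]
    refine mul_right_cancel₀ (mul_ne_zero (pow_ne_zero 2 hX0) (pow_ne_zero 3 hv0)) ?_
    linear_combination ι v * (y * (ι X * ι v) - 1) * hyv + hve - (ι X ^ 2 * ((x * ι v) ^ 2 + x * ι v + 1) +
      ι (C a) * ι X ^ 2 * ι v * (x * ι v + 1) + ι (C c) * ι X ^ 2 * ι v ^ 2) * hxv
  have htr : ∀ g : k[X], Polynomial.aeval x g = 0 → g = 0 := by
    intro g hg
    have hx0 : x ≠ 0 := by
      intro h0
      rw [h0, zero_mul] at hxv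
      exact zero_ne_one hxv
    have hinv : x⁻¹ = ι v := by rw [hx, inv_inv]
    letI : Invertible x := invertibleOfNonzero hx0
    have h1 : Polynomial.eval₂ (algebraMap k L) (⅟x) g.reverse = 0 := by
      rw [Polynomial.eval₂_reverse_eq_zero_iff]
      exact hg
    rw [invOf_eq_inv, hinv] at h1
    have h3 : ι (Polynomial.eval₂ (C : k →+* k⟦X⟧) v g.reverse) = 0 := by
      rw [Polynomial.hom_eval₂, show ι.comp (C : k →+* k⟦X⟧) = algebraMap k L from RingHom.ext fun r => (hιk r).symm]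
      exact h1
    have h4 : Polynomial.eval₂ (C : k →+* k⟦X⟧) v g.reverse = 0 := hinj (by rw [map_zero]; exact h3)
    have h5 := congrArg (constantCoeff (R := k)) h4
    rw [Polynomial.hom_eval₂, v_cc hv, Polynomial.eval₂_at_zero, map_zero, RingHom.comp_apply, constantCoeff_C,
      Polynomial.coeff_zero_reverse] at h5
    exact Polynomial.leadingCoeff_eq_zero.1 h5
  obtain ⟨hx1, hy1⟩ := curv hq h2 D hDk hDx hDy hxy htr hal hM
  obtain ⟨E, hE⟩ := exists_pow hq D
  have hcomp : ∀ n G, D^[n] (ι G) = ι ((del a c v)^[n] G) := by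
    intro n G
    induction n with
    | zero => rfl
    | succ n ih =>
      rw [Function.iterate_succ_apply', Function.iterate_succ_apply', ih]
      exact hD _
  have h4 : ι X * y = - x := by
    rw [hx, hy]
    field_simp
  have h5 := congrArg E h4
  rw [Der.mul, map_neg, hE x, hE y, hx1, hy1, mul_zero, zero_add, neg_zero] at h5
  have h6 := (mul_eq_zero.1 h5).resolve_left hy0
  rw [hE, hcomp] at h6
  exact hinj (by rw [map_zero]; exact h6)

/-- THE q-CURVATURE ON POWER SERIES -/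
theorem del_pow {q : ℕ} (hq : q.Prime) (h2 : q ≠ 2) [CharP k q] {a c al : k} (hal : al ^ q ≠ al) {NN DD : k[X]}
    (hM : Mult a c al NN DD) {v : k⟦X⟧} (hv : IsV a c v) (F : k⟦X⟧) : (del a c v)^[q] F = 0 := by
  have hCS : CharP k⟦X⟧ q := charP_of_injective_ringHom (f := (C : k →+* k⟦X⟧)) PowerSeries.C_injective q
  obtain ⟨E', hE'⟩ := exists_pow hq (del a c v)
  have hEX : E' X = 0 := by
    rw [hE']
    exact del_pow_X (L := FractionRing k⟦X⟧) (fun r => rfl) hq h2 hal hM hv
  have hEC : ∀ r : k, E' (C r) = 0 := by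
    intro r
    rw [hE', show q = (q - 1) + 1 from (Nat.succ_pred_eq_of_pos hq.pos).symm, Function.iterate_succ_apply, del_C]
    exact iter_zero _ _
  rw [← hE']
  have key : ∀ n, (X : k⟦X⟧) ^ n ∣ E' F - 0 := by
    intro n
    rw [sub_zero]
    have hEp : ∀ p : k[X], E' (p : k⟦X⟧) = 0 := by
      intro p
      induction p using Polynomial.induction_on' with
      | add p q hp hq => rw [Polynomial.coe_add, map_add, hp, hq, add_zero]
      | monomial n r =>
        rw [Polynomial.coe_monomial, show PowerSeries.monomial n r = C r * X ^ n by rw [← PowerSeries.monomial_zero_eq_C_apply,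
          X_pow_eq, monomial_mul_monomial, zero_add, mul_one], Der.mul, Der.pow, hEX, hEC]
        simp
    obtain ⟨G, hG⟩ : (X : k⟦X⟧) ^ n ∣ F - ((PowerSeries.trunc n F : k[X]) : k⟦X⟧) := by
      rw [X_pow_dvd_iff]
      intro m hm
      rw [map_sub, Polynomial.coeff_coe, coeff_trunc, if_pos hm, sub_self]
    have h7 : F = ((PowerSeries.trunc n F : k[X]) : k⟦X⟧) + X ^ n * G := by rw [← hG]; ring
    rw [h7, map_add, hEp, Der.mul, Der.pow, hEX]
    simp
  exact eq_of_dvd_all key

end fld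

end H55L
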