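import Mathlib
import Pool.Agent.Lib.H55L.B03

/-! # H55L: divisibility by unramified primes -/

open NumberField

namespace H55L

section unram

variable (K : Type*) [Field K] [NumberField K]

theorem dvd_of_forall_max {q : ℕ} (hq : q.Prime) (hd : ¬ (q : ℤ) ∣ discr K) {x : 𝓞 K}
    (h : ∀ P : Ideal (𝓞 K), P.IsMaximal → (q : 𝓞 K) ∈ P → x ∈ P) : (q : 𝓞 K) ∣ x := by
  have hq0 : (q : 𝓞 K) ≠ 0 := Nat.cast_ne_zero.2 hq.ne_zero
  obtain ⟨I, hI⟩ : ∃ I : Ideal (𝓞 K), I = Ideal.span {(q : 𝓞 K)} := ⟨_, rfl⟩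
  have hI0 : I ≠ ⊥ := by
    rw [hI, Ne, Ideal.span_singleton_eq_bot]
    exact hq0
  have hmap : (Ideal.span {(q : ℤ)}).map (algebraMap ℤ (𝓞 K)) = I := by
    rw [Ideal.map_span, Set.image_singleton, hI]
    norm_num
  have hp0 : Ideal.span {(q : ℤ)} ≠ ⊥ := by
    rw [Ne, Ideal.span_singleton_eq_bot]
    exact_mod_cast hq.ne_zero
  have hqZ : Prime (q : ℤ) := Nat.prime_iff_prime_int.1 hq
  have hpm : (Ideal.span {(q : ℤ)}).IsMaximal :=
    ((Ideal.span_singleton_prime (by exact_mod_cast hq.ne_zero)).2 hqZ).isMaximal hp0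
  have hsq : Squarefree I := by
    intro J hJ
    by_contra hu
    have hJ1 : J ≠ ⊤ := by
      intro h1
      apply hu
      rw [h1]
      exact Ideal.isUnit_iff.2 rfl
    obtain ⟨P, hP, hJP⟩ := Ideal.exists_le_maximal J hJ1
    have h1 : P ^ 2 ∣ I := by
      rw [pow_two]
      exact (mul_dvd_mul (Ideal.dvd_iff_le.2 hJP) (Ideal.dvd_iff_le.2 hJP)).trans hJ
    have h2 : P ∣ differentIdeal ℤ (𝓞 K) := by
      have := pow_sub_one_dvd_differentIdeal ℤ P 2 hp0 (by rw [hmap]; exact h1)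
      simpa using this
    have h3 : Ideal.absNorm P ∣ (discr K).natAbs := by
      rw [← absNorm_differentIdeal K (𝓞 K)]
      exact Ideal.absNorm_dvd_absNorm_of_le (Ideal.dvd_iff_le.1 h2)
    have hPI : P ∣ I := (dvd_pow_self P two_ne_zero).trans h1
    have h4 : Ideal.absNorm P ∣ q ^ (Module.finrank ℤ (𝓞 K)) := by
      have := Ideal.absNorm_dvd_absNorm_of_le (Ideal.dvd_iff_le.1 hPI)
      rw [hI, Ideal.absNorm_span_singleton] at this
      have h5 : Algebra.norm ℤ (q : 𝓞 K) = (q : ℤ) ^ Module.finrank ℤ (𝓞 K) := by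
        have := Algebra.norm_algebraMap (S := 𝓞 K) (q : ℤ)
        simpa using this
      rw [h5, Int.natAbs_pow, Int.natAbs_natCast] at this
      exact this
    obtain ⟨m, -, hm⟩ := (Nat.dvd_prime_pow hq).1 h4
    have hm0 : m ≠ 0 := by
      rintro rfl
      rw [pow_zero, Ideal.absNorm_eq_one_iff] at hm
      exact hP.ne_top hm
    apply hd
    rw [← Int.natAbs_dvd_natAbs, Int.natAbs_natCast]
    exact (dvd_pow_self q hm0).trans (hm ▸ h3)
  have hrad : x ∈ I.radical := by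
    rw [Ideal.radical_eq_sInf, Ideal.mem_sInf]
    intro P hP
    obtain ⟨hP1, hP2⟩ := hP
    have hqP : (q : 𝓞 K) ∈ P := hP1 (by rw [hI]; exact Ideal.mem_span_singleton_self _)
    have hPbot : P ≠ ⊥ := by
      rintro rfl
      exact hq0 (Ideal.mem_bot.1 hqP)
    exact h P (hP2.isMaximal hPbot) hqP
  obtain ⟨n, hn⟩ := hrad
  have h6 : I ∣ (Ideal.span {x}) ^ n := by
    rw [Ideal.span_singleton_pow, Ideal.dvd_iff_le, Ideal.span_singleton_le_iff_mem]
    exact hn
  have h7 : I ∣ Ideal.span {x} := hsq.isRadical n _ h6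
  rw [Ideal.dvd_iff_le, Ideal.span_singleton_le_iff_mem, hI, Ideal.mem_span_singleton] at h7
  exact h7

end unram

end H55L
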