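import Mathlib
import Pool.Agent.Lib.H55L.B04

/-! # H55L: divisibility of the iterates of the invariant derivation -/

open NumberField PowerSeries

namespace H55L

section it

variable {R : Type*} [CommRing R]

theorem iter_C_mul (D : Der R⟦X⟧) {r : R} (hr : D (C r) = 0) (n : ℕ) (F : R⟦X⟧) : D^[n] (C r * F) = C r * D^[n] F := by
  induction n with
  | zero => rfl
  | succ n ih => rw [Function.iterate_succ_apply', ih, Der.mul, hr, mul_zero, add_zero, Function.iterate_succ_apply']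

theorem iter_dvd (D : Der R⟦X⟧) {r : R} (hr : D (C r) = 0) {q : ℕ} (H : ∀ F, ∃ G, D^[q] F = C r * G) (m j : ℕ) :
    ∀ F, ∃ G, D^[q * m + j] F = C (r ^ m) * G := by
  induction m with
  | zero => exact fun F => ⟨D^[q * 0 + j] F, by rw [pow_zero, map_one, one_mul]⟩
  | succ m ih =>
    intro F
    obtain ⟨G, hG⟩ := H F
    obtain ⟨G', hG'⟩ := ih G
    refine ⟨G', ?_⟩
    rw [show q * (m + 1) + j = (q * m + j) + q by ring, Function.iterate_add_apply, hG, iter_C_mul D hr, hG', pow_succ', map_mul,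
      mul_assoc]

theorem iter_dvd' (D : Der R⟦X⟧) {r : R} (hr : D (C r) = 0) {q : ℕ} (H : ∀ F, ∃ G, D^[q] F = C r * G) (i : ℕ) (F : R⟦X⟧) :
    ∃ G, D^[i] F = C (r ^ (i / q)) * G := by
  have h1 := iter_dvd D hr H (i / q) (i % q) F
  rwa [Nat.div_add_mod] at h1

end it

section arith

open scoped Polynomial

variable (K : Type*) [Field K] [NumberField K]

/-- The conditions on a prime. -/
structure GoodP (q : ℕ) (al : 𝓞 K) (W : (𝓞 K)[X]) : Prop where
  hq : q.Prime
  h2 : q ≠ 2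
  hd : ¬ (q : ℤ) ∣ discr K
  hW : ∀ P : Ideal (𝓞 K), P.IsMaximal → (q : 𝓞 K) ∈ P → W.map (Ideal.Quotient.mk P) ≠ 0
  hal : ∀ P : Ideal (𝓞 K), P.IsMaximal → (q : 𝓞 K) ∈ P → al ^ q - al ∉ P

theorem del_pow_dvd {q : ℕ} {a c al : 𝓞 K} {NN DD : (𝓞 K)[X]}
    (hG : GoodP K q al (Polynomial.derivative NN * DD - NN * Polynomial.derivative DD))
    (heq : cub a c * (Polynomial.derivative NN * DD - NN * Polynomial.derivative DD) ^ 2 =
      Polynomial.C al ^ 2 * DD * (NN ^ 3 + Polynomial.C a * NN ^ 2 * DD + Polynomial.C c * NN * DD ^ 2))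
    {v : (𝓞 K)⟦X⟧} (hv : IsV a c v) (F : (𝓞 K)⟦X⟧) : ∃ G, (del a c v)^[q] F = C (q : 𝓞 K) * G := by
  have key : ∀ n, (q : 𝓞 K) ∣ coeff n ((del a c v)^[q] F) := by
    intro n
    refine dvd_of_forall_max K hG.hq hG.hd fun P hP hqP => ?_
    letI : Field (𝓞 K ⧸ P) := Ideal.Quotient.field P
    have hchar : CharP (𝓞 K ⧸ P) q := by
      have h0 : ((q : ℕ) : 𝓞 K ⧸ P) = 0 := by
        have := Ideal.Quotient.eq_zero_iff_mem.2 hqP
        rw [map_natCast] at this
        exact this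
      obtain ⟨p, hp⟩ := CharP.exists (𝓞 K ⧸ P)
      have h1 : p ∣ q := (CharP.cast_eq_zero_iff (𝓞 K ⧸ P) p q).1 h0
      rcases (Nat.dvd_prime hG.hq).1 h1 with h2 | h2
      · exfalso
        rw [h2] at hp
        have h3 : ((1 : ℕ) : 𝓞 K ⧸ P) = 0 := (CharP.cast_eq_zero_iff (𝓞 K ⧸ P) 1 1).2 dvd_rfl
        rw [Nat.cast_one] at h3
        exact one_ne_zero h3
      · rwa [h2] at hp
    have hal' : (Ideal.Quotient.mk P al) ^ q ≠ Ideal.Quotient.mk P al := by
      intro h0
      apply hG.hal P hP hqP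
      rw [← Ideal.Quotient.eq_zero_iff_mem, map_sub, map_pow, h0, sub_self]
    have hM : Mult (Ideal.Quotient.mk P a) (Ideal.Quotient.mk P c) (Ideal.Quotient.mk P al) (NN.map (Ideal.Quotient.mk P))
        (DD.map (Ideal.Quotient.mk P)) := by
      refine ⟨?_, ?_⟩
      · have := hG.hW P hP hqP
        simpa only [Polynomial.map_sub, Polynomial.map_mul, Polynomial.derivative_map] using this
      · have := congrArg (Polynomial.map (Ideal.Quotient.mk P)) heq
        simpa only [cub, Polynomial.map_sub, Polynomial.map_mul, Polynomial.map_add, Polynomial.map_pow, Polynomial.map_X,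
          Polynomial.map_C, Polynomial.derivative_map] using this
    have h3 := del_pow hG.hq hG.h2 hal' hM (hv.map (Ideal.Quotient.mk P)) (PowerSeries.map (Ideal.Quotient.mk P) F)
    rw [← Ideal.Quotient.eq_zero_iff_mem, ← coeff_map, map_del_iter, h3, map_zero]
  choose b hb using key
  refine ⟨PowerSeries.mk b, ?_⟩
  ext n
  rw [coeff_C_mul, coeff_mk, hb]

end arith

end H55L
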