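import Mathlib
import Pool.Agent.Lib.H55L.B05
import Pool.Agent.Lib.H47E.Defs

/-! # H55L: the coefficients of the series of the curve -/

open NumberField PowerSeries

namespace H55L

section lk

variable (K : Type) [Field K] [NumberField K] (a c : 𝓞 K)

/-- The derivation on polynomials. -/
noncomputable def dP : Derivation (𝓞 K) (MvPolynomial (Fin 2) (𝓞 K)) (MvPolynomial (Fin 2) (𝓞 K)) :=
  MvPolynomial.mkDerivation (𝓞 K) ![1 - MvPolynomial.C a * MvPolynomial.X 0 ^ 2 - 2 * MvPolynomial.C c * MvPolynomial.X 0 ^ 2 * MvPolynomial.X 1,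
    2 * MvPolynomial.X 0 * (1 + MvPolynomial.C a * MvPolynomial.X 1 + MvPolynomial.C c * MvPolynomial.X 1 ^ 2)]

/-- evaluation at a pair -/
noncomputable def ev {A : Type} [CommRing A] (f : 𝓞 K →+* A) (t v : A) : MvPolynomial (Fin 2) (𝓞 K) →+* A :=
  MvPolynomial.eval₂Hom f ![t, v]

theorem ev_dP {A : Type} [CommRing A] (f : 𝓞 K →+* A) (t v : A) (D : A →+ A) (hD : ∀ x y, D (x * y) = x * D y + y * D x)
    (hf : ∀ r, D (f r) = 0) (ht : D t = 1 - f a * t ^ 2 - 2 * f c * t ^ 2 * v) (hv : D v = 2 * t * (1 + f a * v + f c * v ^ 2))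
    (P : MvPolynomial (Fin 2) (𝓞 K)) : ev K f t v (dP K a c P) = D (ev K f t v P) := by
  induction P using MvPolynomial.induction_on with
  | C r =>
    have h1 : dP K a c (MvPolynomial.C r) = 0 := MvPolynomial.derivation_C _ r
    rw [h1, map_zero]
    unfold ev
    rw [MvPolynomial.eval₂Hom_C, hf]
  | add p q hp hq => rw [map_add, map_add, map_add, map_add, hp, hq]
  | mul_X p i hp =>
    rw [Derivation.leibniz, map_add, smul_eq_mul, smul_eq_mul, map_mul, map_mul, map_mul, hD, hp]
    congr 1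
    congr 1
    unfold dP
    rw [MvPolynomial.mkDerivation_X]
    have h0 : ev K f t v (MvPolynomial.X 0) = t := by unfold ev; rw [MvPolynomial.eval₂Hom_X']; rfl
    have h1 : ev K f t v (MvPolynomial.X 1) = v := by unfold ev; rw [MvPolynomial.eval₂Hom_X']; rfl
    have hC : ∀ r, ev K f t v (MvPolynomial.C r) = f r := by intro r; unfold ev; rw [MvPolynomial.eval₂Hom_C]
    fin_cases i
    · show ev K f t v (1 - MvPolynomial.C a * MvPolynomial.X 0 ^ 2 - 2 * MvPolynomial.C c * MvPolynomial.X 0 ^ 2 * MvPolynomial.X 1) =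
        D (ev K f t v (MvPolynomial.X 0))
      rw [h0, ht]
      simp only [map_sub, map_mul, map_pow, map_one, map_ofNat, h0, h1, hC]
    · show ev K f t v (2 * MvPolynomial.X 0 * (1 + MvPolynomial.C a * MvPolynomial.X 1 + MvPolynomial.C c * MvPolynomial.X 1 ^ 2)) =
        D (ev K f t v (MvPolynomial.X 1))
      rw [h1, hv]
      simp only [map_add, map_mul, map_pow, map_one, map_ofNat, h0, h1, hC]

theorem ev_dP_iter {A : Type} [CommRing A] (f : 𝓞 K →+* A) (t v : A) (D : A →+ A) (hD : ∀ x y, D (x * y) = x * D y + y * D x)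
    (hf : ∀ r, D (f r) = 0) (ht : D t = 1 - f a * t ^ 2 - 2 * f c * t ^ 2 * v) (hv : D v = 2 * t * (1 + f a * v + f c * v ^ 2))
    (P : MvPolynomial (Fin 2) (𝓞 K)) (n : ℕ) : ev K f t v ((dP K a c)^[n] P) = D^[n] (ev K f t v P) := by
  induction n with
  | zero => rfl
  | succ n ih => rw [Function.iterate_succ_apply', Function.iterate_succ_apply', ev_dP K a c f t v D hD hf ht hv, ih]

end lk

section lk2

variable {K : Type} [Field K] [NumberField K] {a c : 𝓞 K}

theorem ser_v0 (S : H47E.Ser K (a : K) (c : K)) : constantCoeff S.v = 0 := by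
  rw [S.hv, map_mul, map_pow, S.t0]; simp

theorem ser_hv (S : H47E.Ser K (a : K) (c : K)) :
    derivative K S.v = 2 * S.t * (1 + C (a : K) * S.v + C (c : K) * S.v ^ 2) := by
  have hu : IsUnit (1 - C (a : K) * S.t ^ 2 - 2 * C (c : K) * S.t ^ 2 * S.v) := by
    rw [PowerSeries.isUnit_iff_constantCoeff]
    have : constantCoeff (1 - C (a : K) * S.t ^ 2 - 2 * C (c : K) * S.t ^ 2 * S.v) = 1 := by
      rw [map_sub, map_sub, map_mul, map_mul, map_pow, map_mul, map_mul, map_pow, S.t0]; simp
    rw [this]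
    exact isUnit_one
  refine hu.mul_left_cancel ?_
  have h1 : derivative K S.v = derivative K (S.t ^ 2 * (1 + C (a : K) * S.v + C (c : K) * S.v ^ 2)) := congrArg _ S.hv
  rw [Derivation.leibniz, Derivation.leibniz_pow, map_add, map_add, Derivation.map_one_eq_zero, Derivation.leibniz, Derivation.leibniz,
    derivative_C, derivative_C, Derivation.leibniz_pow, S.ht] at h1
  simp only [smul_eq_mul, nsmul_eq_mul, mul_zero, add_zero, zero_add, Nat.cast_ofNat, pow_one, Nat.add_one_sub_one] at h1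
  linear_combination h1

/-- The link between the two expansions. -/
theorem link (S : H47E.Ser K (a : K) (c : K)) {v : (𝓞 K)⟦X⟧} (hv : IsV a c v) (P : MvPolynomial (Fin 2) (𝓞 K)) (n : ℕ) :
    (n.factorial : K) * coeff n (ev K ((C : K →+* K⟦X⟧).comp (algebraMap (𝓞 K) K)) S.t S.v P) =
      algebraMap (𝓞 K) K (constantCoeff ((del a c v)^[n] (ev K (C : 𝓞 K →+* (𝓞 K)⟦X⟧) X v P))) := by
  have h1 := ev_dP_iter K a c ((C : K →+* K⟦X⟧).comp (algebraMap (𝓞 K) K)) S.t S.v (derivative K).toLinearMap.toAddMonoidHom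
    (fun x y => (derivative K).leibniz x y) (fun r => derivative_C) S.ht (ser_hv S) P n
  have h2 := ev_dP_iter K a c (C : 𝓞 K →+* (𝓞 K)⟦X⟧) X v (AddMonoidHom.mk' (fun x => del a c v x) (map_add _))
    (fun x y => Der.mul (del a c v) x y) (fun r => del_C a c v r) (del_X a c v) (del_v hv) P n
  have h3 : ∀ G : MvPolynomial (Fin 2) (𝓞 K), constantCoeff (ev K ((C : K →+* K⟦X⟧).comp (algebraMap (𝓞 K) K)) S.t S.v G) =
      algebraMap (𝓞 K) K (constantCoeff (ev K (C : 𝓞 K →+* (𝓞 K)⟦X⟧) X v G)) := by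
    intro G
    have hv0 : constantCoeff v = 0 := by rw [hv]; simp
    have h4 : (constantCoeff (R := K)).comp (ev K ((C : K →+* K⟦X⟧).comp (algebraMap (𝓞 K) K)) S.t S.v) =
        (algebraMap (𝓞 K) K).comp ((constantCoeff (R := 𝓞 K)).comp (ev K (C : 𝓞 K →+* (𝓞 K)⟦X⟧) X v)) := by
      refine MvPolynomial.ringHom_ext (fun r => ?_) (fun i => ?_)
      · unfold ev
        simp only [RingHom.comp_apply, MvPolynomial.eval₂Hom_C, constantCoeff_C]
      · unfold ev
        simp only [RingHom.comp_apply, MvPolynomial.eval₂Hom_X']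
        fin_cases i
        · show constantCoeff S.t = algebraMap (𝓞 K) K (constantCoeff X)
          rw [S.t0, constantCoeff_X, map_zero]
        · show constantCoeff S.v = algebraMap (𝓞 K) K (constantCoeff v)
          rw [ser_v0, hv0, map_zero]
    exact RingHom.congr_fun h4 G
  have h5 : ∀ (n : ℕ) (f : K⟦X⟧), constantCoeff ((derivative K).toLinearMap.toAddMonoidHom^[n] f) = (n.factorial : K) * coeff n f := by
    intro n f
    exact constantCoeff_iterate_derivative f n
  have h7 := h3 ((dP K a c)^[n] P)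
  rw [h1, h2, h5] at h7
  exact h7

end lk2

end H55L
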