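import Mathlib
import Pool.Agent.Lib.H55L.B06

/-! # H55L: the good primes, and the property PD of the series t, v, g -/

open NumberField PowerSeries

namespace H55L

section pd

variable {K : Type} [Field K] [NumberField K] {a c : 𝓞 K}

theorem pd_series (S : H47E.Ser K (a : K) (c : K)) {v : (𝓞 K)⟦X⟧} (hv : IsV a c v) (M : ℕ) {Q : Set ℕ}
    (hQ : ∀ q ∈ Q, ∀ F, ∃ G, (del a c v)^[q] F = C (q : 𝓞 K) * G) :
    H47E.PD K M Q 0 S.t ∧ H47E.PD K M Q 0 S.v ∧ H47E.PD K M Q 1 S.g := by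
  have hev0 : ev K ((C : K →+* K⟦X⟧).comp (algebraMap (𝓞 K) K)) S.t S.v (MvPolynomial.X 0) = S.t := by
    unfold ev; rw [MvPolynomial.eval₂Hom_X']; rfl
  have hev1 : ev K ((C : K →+* K⟦X⟧).comp (algebraMap (𝓞 K) K)) S.t S.v (MvPolynomial.X 1) = S.v := by
    unfold ev; rw [MvPolynomial.eval₂Hom_X']; rfl
  have hdv : ∀ (F : (𝓞 K)⟦X⟧) (i : ℕ), ∀ q ∈ Q, (q : 𝓞 K) ^ (i / q) ∣ constantCoeff ((del a c v)^[i] F) := by
    intro F i q hq
    obtain ⟨G, hG⟩ := iter_dvd' (del a c v) (del_C a c v (q : 𝓞 K)) (hQ q hq) i F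
    rw [hG, map_mul, constantCoeff_C]
    exact dvd_mul_right _ _
  have hb1 : ∀ i, algebraMap (𝓞 K) K (constantCoeff ((del a c v)^[i] (ev K (C : 𝓞 K →+* (𝓞 K)⟦X⟧) X v (MvPolynomial.X 1)))) =
      (i.factorial : K) * coeff i S.v := by
    intro i
    rw [← link S hv, hev1]
  refine ⟨⟨0, fun i => ⟨constantCoeff ((del a c v)^[i] (ev K (C : 𝓞 K →+* (𝓞 K)⟦X⟧) X v (MvPolynomial.X 0))), ?_, ?_⟩⟩,
    ⟨0, fun i => ⟨constantCoeff ((del a c v)^[i] (ev K (C : 𝓞 K →+* (𝓞 K)⟦X⟧) X v (MvPolynomial.X 1))), ?_, ?_⟩⟩, ⟨0, fun i => ?_⟩⟩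
  · rw [← link S hv, hev0, zero_mul, pow_zero, one_mul]
  · intro q hq
    rw [Nat.sub_zero]
    exact hdv _ i q hq
  · rw [hb1, zero_mul, pow_zero, one_mul]
  · intro q hq
    rw [Nat.sub_zero]
    exact hdv _ i q hq
  · cases i with
    | zero =>
      refine ⟨0, ?_, fun q _ => dvd_zero _⟩
      rw [coeff_zero_eq_constantCoeff_apply, S.g0, mul_zero, map_zero]
    | succ i =>
      refine ⟨-c * constantCoeff ((del a c v)^[i] (ev K (C : 𝓞 K →+* (𝓞 K)⟦X⟧) X v (MvPolynomial.X 1))), ?_, ?_⟩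
      · have h1 := congrArg (coeff i) S.hg
        rw [coeff_derivative, map_neg, coeff_C_mul] at h1
        rw [map_mul, map_neg, hb1, zero_mul, pow_zero, one_mul, Nat.factorial_succ, Nat.cast_mul]
        push_cast
        linear_combination -(i.factorial : K) * h1
      · intro q hq
        refine Dvd.dvd.mul_left ?_ _
        refine (pow_dvd_pow _ ?_).trans (hdv _ i q hq)
        rcases Nat.eq_zero_or_pos q with rfl | hq0
        · simp
        · rw [Nat.sub_le_iff_le_add]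
          calc (i + 1) / q ≤ (i + q) / q := Nat.div_le_div_right (by omega)
            _ = i / q + 1 := Nat.add_div_right i hq0

end pd

section good

open scoped Polynomial

variable {K : Type} [Field K] [NumberField K]

theorem al_ne {al : 𝓞 K} {A₀ B₀ : ℤ} (hquad : al ^ 2 - (A₀ : 𝓞 K) * al + (B₀ : 𝓞 K) = 0) {q : ℕ} (hq : q.Prime) (h2 : q ≠ 2)
    (hJ : jacobiSym (A₀ ^ 2 - 4 * B₀) q = -1) (P : Ideal (𝓞 K)) (hP : P.IsMaximal) (hqP : (q : 𝓞 K) ∈ P) : al ^ q - al ∉ P := by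
  intro hmem
  haveI : Fact q.Prime := ⟨hq⟩
  letI : Field (𝓞 K ⧸ P) := Ideal.Quotient.field P
  have hchar : CharP (𝓞 K ⧸ P) q := by
    have h0 : ((q : ℕ) : 𝓞 K ⧸ P) = 0 := by
      have := Ideal.Quotient.eq_zero_iff_mem.2 hqP
      rw [map_natCast] at this
      exact this
    obtain ⟨p, hp⟩ := CharP.exists (𝓞 K ⧸ P)
    have h1 : p ∣ q := (CharP.cast_eq_zero_iff (𝓞 K ⧸ P) p q).1 h0
    rcases (Nat.dvd_prime hq).1 h1 with h2 | h2
    · exfalso
      rw [h2] at hp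
      have h3 : ((1 : ℕ) : 𝓞 K ⧸ P) = 0 := (CharP.cast_eq_zero_iff (𝓞 K ⧸ P) 1 1).2 dvd_rfl
      rw [Nat.cast_one] at h3
      exact one_ne_zero h3
    · rwa [h2] at hp
  haveI : Fact (q.Prime) := ⟨hq⟩
  obtain ⟨Δ, hΔ⟩ : ∃ Δ : ℤ, Δ = A₀ ^ 2 - 4 * B₀ := ⟨_, rfl⟩
  rw [← hΔ, ← jacobiSym.legendreSym.to_jacobiSym] at hJ
  have hpow : (Δ : ZMod q) ^ (q / 2) = -1 := by
    have := legendreSym.eq_pow q Δ
    rw [hJ] at this
    push_cast at this
    exact this.symm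
  have hpow' : (Δ : 𝓞 K ⧸ P) ^ (q / 2) = -1 := by
    have := congrArg (ZMod.castHom (dvd_refl q) (𝓞 K ⧸ P)) hpow
    rw [map_pow, map_neg, map_one, map_intCast] at this
    exact this
  obtain ⟨β, hβ⟩ : ∃ β : 𝓞 K ⧸ P, β = 2 * Ideal.Quotient.mk P al - (A₀ : 𝓞 K ⧸ P) := ⟨_, rfl⟩
  have hqu : (Ideal.Quotient.mk P al) ^ 2 - (A₀ : 𝓞 K ⧸ P) * Ideal.Quotient.mk P al + (B₀ : 𝓞 K ⧸ P) = 0 := by
    have := congrArg (Ideal.Quotient.mk P) hquad
    rw [map_add, map_sub, map_pow, map_mul, map_intCast, map_intCast, map_zero] at this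
    exact this
  have hβ2 : β ^ 2 = (Δ : 𝓞 K ⧸ P) := by
    rw [hβ, hΔ]
    push_cast
    linear_combination 4 * hqu
  have hodd : q = 2 * (q / 2) + 1 := by
    have := hq.odd_of_ne_two h2
    obtain ⟨m, hm⟩ := this
    omega
  have hβq : β ^ q = -β := by
    rw [hodd, pow_succ, pow_mul, hβ2, hpow']
    ring
  have halq : (Ideal.Quotient.mk P al) ^ q = Ideal.Quotient.mk P al := by
    have := Ideal.Quotient.eq_zero_iff_mem.2 hmem
    rw [map_sub, map_pow, sub_eq_zero] at this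
    exact this
  have hβq' : β ^ q = β := by
    rw [hβ, sub_pow_char, mul_pow, halq]
    have h3 : (2 : 𝓞 K ⧸ P) ^ q = 2 := by
      have h4 : ((2 : ZMod q)) ^ q = 2 := ZMod.pow_card 2
      have := congrArg (ZMod.castHom (dvd_refl q) (𝓞 K ⧸ P)) h4
      rw [map_pow, map_ofNat] at this
      exact this
    have h5 : (A₀ : 𝓞 K ⧸ P) ^ q = A₀ := by
      have h4 : ((A₀ : ZMod q)) ^ q = A₀ := ZMod.pow_card _
      have := congrArg (ZMod.castHom (dvd_refl q) (𝓞 K ⧸ P)) h4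
      rw [map_pow, map_intCast] at this
      exact this
    rw [h3, h5]
  have hβ0 : 2 * β = 0 := by linear_combination hβq - hβq'
  have h20 : (2 : 𝓞 K ⧸ P) ≠ 0 := by
    intro h0
    have h1 : ((2 : ℕ) : 𝓞 K ⧸ P) = 0 := by exact_mod_cast h0
    rw [CharP.cast_eq_zero_iff (𝓞 K ⧸ P) q] at h1
    exact h2 ((Nat.prime_dvd_prime_iff_eq hq Nat.prime_two).1 h1)
  have hβ00 : β = 0 := (mul_eq_zero.1 hβ0).resolve_left h20
  rw [hβ00, zero_pow two_ne_zero] at hβ2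
  rw [← hβ2] at hpow'
  rcases Nat.eq_zero_or_pos (q / 2) with h6 | h6
  · have := hq.two_le
    omega
  · rw [zero_pow h6.ne'] at hpow'
    exact neg_ne_zero.2 one_ne_zero hpow'.symm

/-- A common denominator of two polynomials. -/
theorem exists_int (NN DD : K[X]) : ∃ (b : 𝓞 K) (N1 D1 : (𝓞 K)[X]), b ≠ 0 ∧
    N1.map (algebraMap (𝓞 K) K) = Polynomial.C (b : K) * NN ∧ D1.map (algebraMap (𝓞 K) K) = Polynomial.C (b : K) * DD := by
  obtain ⟨b1, hb1m, hb1⟩ := IsLocalization.integerNormalization_spec (nonZeroDivisors (𝓞 K)) NN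
  obtain ⟨b2, hb2m, hb2⟩ := IsLocalization.integerNormalization_spec (nonZeroDivisors (𝓞 K)) DD
  have hb1' : (IsLocalization.integerNormalization (nonZeroDivisors (𝓞 K)) NN).map (algebraMap (𝓞 K) K) = Polynomial.C (b1 : K) * NN := by
    rw [hb1]
    ext n
    rw [Polynomial.coeff_smul, Polynomial.coeff_C_mul, Algebra.smul_def]
  have hb2' : (IsLocalization.integerNormalization (nonZeroDivisors (𝓞 K)) DD).map (algebraMap (𝓞 K) K) = Polynomial.C (b2 : K) * DD := by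
    rw [hb2]
    ext n
    rw [Polynomial.coeff_smul, Polynomial.coeff_C_mul, Algebra.smul_def]
  refine ⟨(b1 : 𝓞 K) * b2, Polynomial.C (b2 : 𝓞 K) * IsLocalization.integerNormalization (nonZeroDivisors (𝓞 K)) NN,
    Polynomial.C (b1 : 𝓞 K) * IsLocalization.integerNormalization (nonZeroDivisors (𝓞 K)) DD,
    mul_ne_zero (nonZeroDivisors.ne_zero hb1m) (nonZeroDivisors.ne_zero hb2m), ?_, ?_⟩
  · rw [Polynomial.map_mul, Polynomial.map_C, hb1']
    show Polynomial.C (algebraMap (𝓞 K) K b2) * (Polynomial.C (algebraMap (𝓞 K) K b1) * NN) =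
      Polynomial.C (algebraMap (𝓞 K) K (b1 * b2)) * NN
    rw [map_mul, Polynomial.C_mul]
    ring
  · rw [Polynomial.map_mul, Polynomial.map_C, hb2']
    show Polynomial.C (algebraMap (𝓞 K) K b1) * (Polynomial.C (algebraMap (𝓞 K) K b2) * DD) =
      Polynomial.C (algebraMap (𝓞 K) K (b1 * b2)) * DD
    rw [map_mul, Polynomial.C_mul]
    ring

theorem exists_good {a c : 𝓞 K} (D : H47E.CMData K (a : K) (c : K)) :
    ∃ M : ℕ, 0 < M ∧ ∀ q : ℕ, q.Prime → q ≠ 2 → ¬ q ∣ M → jacobiSym (D.A₀ ^ 2 - 4 * D.B₀) q = -1 →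
      ∀ {v : (𝓞 K)⟦X⟧}, IsV a c v → ∀ F, ∃ G, (del a c v)^[q] F = C (q : 𝓞 K) * G := by
  have hint : IsIntegral ℤ D.α := by
    refine ⟨Polynomial.X ^ 2 + (Polynomial.C (-D.A₀) * Polynomial.X + Polynomial.C D.B₀), ?_, ?_⟩
    · refine Polynomial.monic_X_pow_add ?_
      refine lt_of_le_of_lt (Polynomial.degree_linear_le) (by norm_num)
    · rw [Polynomial.eval₂_add, Polynomial.eval₂_add, Polynomial.eval₂_mul, Polynomial.eval₂_X_pow, Polynomial.eval₂_C,
        Polynomial.eval₂_C, Polynomial.eval₂_X, algebraMap_int_eq, eq_intCast, eq_intCast]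
      push_cast
      linear_combination D.quad
  obtain ⟨al, hal⟩ : ∃ al : 𝓞 K, (al : K) = D.α := ⟨⟨D.α, hint⟩, rfl⟩
  have hquad : al ^ 2 - (D.A₀ : 𝓞 K) * al + (D.B₀ : 𝓞 K) = 0 := by
    apply FaithfulSMul.algebraMap_injective (𝓞 K) K
    rw [map_add, map_sub, map_pow, map_mul, map_intCast, map_intCast, map_zero]
    rw [show algebraMap (𝓞 K) K al = D.α from hal]
    exact D.quad
  obtain ⟨b, N1, D1, hb, hN1, hD1⟩ := exists_int D.NN D.DD
  obtain ⟨W, hW⟩ : ∃ W, W = Polynomial.derivative N1 * D1 - N1 * Polynomial.derivative D1 := ⟨_, rfl⟩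
  have hbK : (b : K) ≠ 0 := by
    intro h0
    exact hb (FaithfulSMul.algebraMap_injective (𝓞 K) K (by rw [map_zero]; exact h0))
  have hWm : W.map (algebraMap (𝓞 K) K) = Polynomial.C (b : K) ^ 2 * (Polynomial.derivative D.NN * D.DD - D.NN * Polynomial.derivative D.DD) := by
    rw [hW, Polynomial.map_sub, Polynomial.map_mul, Polynomial.map_mul, ← Polynomial.derivative_map, ← Polynomial.derivative_map, hN1, hD1,
      Polynomial.derivative_mul, Polynomial.derivative_mul, Polynomial.derivative_C]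
    ring
  have hW0 : W ≠ 0 := by
    intro h0
    rw [h0, Polynomial.map_zero] at hWm
    exact mul_ne_zero (pow_ne_zero 2 (Polynomial.C_ne_zero.2 hbK)) D.ne hWm.symm
  have heq : cub a c * (Polynomial.derivative N1 * D1 - N1 * Polynomial.derivative D1) ^ 2 =
      Polynomial.C al ^ 2 * D1 * (N1 ^ 3 + Polynomial.C a * N1 ^ 2 * D1 + Polynomial.C c * N1 * D1 ^ 2) := by
    rw [← hW]
    apply Polynomial.map_injective (algebraMap (𝓞 K) K) (FaithfulSMul.algebraMap_injective (𝓞 K) K)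
    have h1 := D.eqn
    rw [map_pow] at h1
    simp only [cub, Polynomial.map_mul, Polynomial.map_add, Polynomial.map_pow, Polynomial.map_X, Polynomial.map_C, hWm, hN1, hD1]
    rw [show algebraMap (𝓞 K) K al = D.α from hal]
    linear_combination Polynomial.C (b : K) ^ 4 * h1
  obtain ⟨w, hw⟩ : ∃ w, w = W.leadingCoeff := ⟨_, rfl⟩
  have hw0 : w ≠ 0 := by rw [hw]; exact Polynomial.leadingCoeff_ne_zero.2 hW0
  obtain ⟨nw, hnw⟩ : ∃ nw : ℕ, nw = Ideal.absNorm (Ideal.span {w}) := ⟨_, rfl⟩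
  have hn0 : nw ≠ 0 := by
    rw [hnw, Ne, Ideal.absNorm_eq_zero_iff, Ideal.span_singleton_eq_bot]
    exact hw0
  refine ⟨(discr K).natAbs * nw, Nat.pos_of_ne_zero (mul_ne_zero (Int.natAbs_ne_zero.2 (discr_ne_zero K)) hn0),
    fun q hq h2 hqM hJ v hv F => ?_⟩
  have hgood : GoodP K q al (Polynomial.derivative N1 * D1 - N1 * Polynomial.derivative D1) := by
    refine ⟨hq, h2, fun hd => hqM (Dvd.dvd.mul_right (Int.natCast_dvd.1 hd) _), fun P hP hqP h0 => ?_, fun P hP hqP =>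
      al_ne hquad hq h2 hJ P hP hqP⟩
    rw [← hW] at h0
    have hwP : w ∈ P := by
      rw [← Ideal.Quotient.eq_zero_iff_mem, hw, Polynomial.leadingCoeff, ← Polynomial.coeff_map, h0, Polynomial.coeff_zero]
    have h3 : ((nw : ℕ) : 𝓞 K) ∈ P := by
      have h30 := Ideal.absNorm_mem (Ideal.span {w})
      rw [← hnw] at h30
      exact (Ideal.span_singleton_le_iff_mem (I := P)).2 hwP h30
    have h4 : ¬ (q : ℤ) ∣ (nw : ℤ) := fun h => hqM (Dvd.dvd.mul_left (Int.natCast_dvd_natCast.1 h) _)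
    have h5 : IsCoprime (q : ℤ) (nw : ℤ) := (Nat.prime_iff_prime_int.1 hq).coprime_iff_not_dvd.2 h4
    obtain ⟨x, y, hxy⟩ := h5
    have h6 : (1 : 𝓞 K) ∈ P := by
      have h7 : ((x * q + y * nw : ℤ) : 𝓞 K) ∈ P := by
        push_cast
        exact P.add_mem (P.mul_mem_left _ hqP) (P.mul_mem_left _ h3)
      rw [hxy, Int.cast_one] at h7
      exact h7
    exact hP.ne_top ((Ideal.eq_top_iff_one P).2 h6)
  exact del_pow_dvd K hgood heq hv F

end good

end H55L
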