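import Mathlib
import Pool.Agent.Lib.H47E.Defs

/-! # H55L: closure properties of PD -/

open NumberField PowerSeries

namespace H55L

variable {K : Type} [Field K] [NumberField K]

open H47E

theorem pd_add {M : ℕ} {Q : Set ℕ} {k l : ℕ} {f g : K⟦X⟧} (hf : PD K M Q k f) (hg : PD K M Q l g) :
    PD K M Q (max k l) (f + g) := by
  obtain ⟨B1, h1⟩ := hf
  obtain ⟨B2, h2⟩ := hg
  refine ⟨B1 + B2, fun i => ?_⟩
  obtain ⟨b1, hb1, hd1⟩ := h1 i
  obtain ⟨b2, hb2, hd2⟩ := h2 i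
  refine ⟨(M : 𝓞 K) ^ (B2 * (i + 1)) * b1 + (M : 𝓞 K) ^ (B1 * (i + 1)) * b2, ?_, fun q hq => ?_⟩
  · rw [map_add, map_mul, map_mul, hb1, hb2, map_pow, map_pow, map_natCast, map_add, add_mul, pow_add]
    ring
  · exact dvd_add (((pow_dvd_pow _ (Nat.sub_le_sub_left (le_max_left _ _) _)).trans (hd1 q hq)).mul_left _)
      (((pow_dvd_pow _ (Nat.sub_le_sub_left (le_max_right _ _) _)).trans (hd2 q hq)).mul_left _)

theorem pd_mono {M : ℕ} {Q : Set ℕ} {k l : ℕ} (h : k ≤ l) {f : K⟦X⟧} (hf : PD K M Q k f) : PD K M Q l f := by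
  obtain ⟨B, h1⟩ := hf
  refine ⟨B, fun i => ?_⟩
  obtain ⟨b1, hb1, hd1⟩ := h1 i
  exact ⟨b1, hb1, fun q hq => (pow_dvd_pow _ (Nat.sub_le_sub_left h _)).trans (hd1 q hq)⟩

theorem dvd_choose {q : ℕ} (hq : q.Prime) (l m : ℕ) : q ^ ((l + m) / q - l / q - m / q) ∣ (l + m).choose l := by
  have hq0 := hq.pos
  have h1 := Nat.div_add_mod l q
  have h2 := Nat.div_add_mod m q
  have h3 := Nat.div_add_mod (l + m) q
  have h4 := Nat.mod_lt l hq0
  have h5 := Nat.mod_lt m hq0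
  have h6 := Nat.mod_lt (l + m) hq0
  by_cases h7 : l % q + m % q < q
  · have h8 : (l + m) / q = l / q + m / q := by
      rw [Nat.add_div hq0, if_neg (by omega)]
      rfl
    rw [h8, show l / q + m / q - l / q - m / q = 0 by omega, pow_zero]
    exact one_dvd _
  · have h8 : (l + m) / q = l / q + m / q + 1 := by
      rw [Nat.add_div hq0, if_pos (by omega)]
    have h9 : (l + m) % q < l % q := by
      have h10 : (l + m) % q = l % q + m % q - q := by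
        rw [Nat.add_mod, Nat.mod_eq_sub_mod (by omega), Nat.mod_eq_of_lt (by omega)]
      omega
    rw [h8, show l / q + m / q + 1 - l / q - m / q = 1 by omega, pow_one]
    haveI : Fact q.Prime := ⟨hq⟩
    have h10 := Choose.choose_modEq_choose_mod_mul_choose_div_nat (n := l + m) (k := l) (p := q)
    rw [Nat.choose_eq_zero_of_lt h9, zero_mul] at h10
    exact (Nat.modEq_zero_iff_dvd).1 h10

theorem pd_mul {M : ℕ} {Q : Set ℕ} (hQ : ∀ q ∈ Q, q.Prime) {k l : ℕ} {f g : K⟦X⟧} (hf : PD K M Q k f)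
    (hg : PD K M Q l g) : PD K M Q (k + l) (f * g) := by
  obtain ⟨B1, h1⟩ := hf
  obtain ⟨B2, h2⟩ := hg
  choose b1 hb1 hd1 using h1
  choose b2 hb2 hd2 using h2
  refine ⟨B1 + B2, fun i => ?_⟩
  refine ⟨∑ p ∈ Finset.HasAntidiagonal.antidiagonal i, (i.choose p.1 : 𝓞 K) * (M : 𝓞 K) ^ (B1 * p.2 + B2 * p.1) * (b1 p.1 * b2 p.2), ?_,
    fun q hq => ?_⟩
  · rw [map_sum, coeff_mul, Finset.mul_sum]
    refine Finset.sum_congr rfl fun p hp => ?_
    rw [Finset.HasAntidiagonal.mem_antidiagonal] at hp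
    rw [map_mul, map_mul, map_mul, map_pow, map_natCast, map_natCast, hb1, hb2]
    have h3 : (i.factorial : K) = (i.choose p.1 : K) * (p.1.factorial : K) * (p.2.factorial : K) := by
      rw [← hp, Nat.choose_symm_add]
      exact_mod_cast (Nat.add_choose_mul_factorial_mul_factorial p.1 p.2).symm
    have h4 : (M : K) ^ ((B1 + B2) * (i + 1)) = (M : K) ^ (B1 * p.2 + B2 * p.1) * ((M : K) ^ (B1 * (p.1 + 1)) * (M : K) ^ (B2 * (p.2 + 1))) := by
      rw [← pow_add, ← pow_add]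
      congr 1
      rw [← hp]
      ring
    rw [h3, h4]
    ring
  · refine Finset.dvd_sum fun p hp => ?_
    rw [Finset.HasAntidiagonal.mem_antidiagonal] at hp
    have h3 : (q : 𝓞 K) ^ ((p.1 + p.2) / q - p.1 / q - p.2 / q) ∣ (i.choose p.1 : 𝓞 K) := by
      have := dvd_choose (hQ q hq) p.1 p.2
      rw [← hp]
      exact_mod_cast Nat.cast_dvd_cast (α := 𝓞 K) this
    have h4 : (q : 𝓞 K) ^ ((p.1 + p.2) / q - p.1 / q - p.2 / q + ((p.1 / q - k) + (p.2 / q - l))) ∣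
        (i.choose p.1 : 𝓞 K) * (M : 𝓞 K) ^ (B1 * p.2 + B2 * p.1) * (b1 p.1 * b2 p.2) := by
      rw [pow_add, pow_add]
      exact mul_dvd_mul (h3.mul_right _) (mul_dvd_mul (hd1 p.1 q hq) (hd2 p.2 q hq))
    refine (pow_dvd_pow _ ?_).trans h4
    rw [← hp]
    omega

theorem pd_const {M : ℕ} {Q : Set ℕ} {x : K} {j : ℕ} (hx : IsIntegral ℤ ((M : K) ^ j * x)) : PD K M Q 0 (C x) := by
  refine ⟨j, fun i => ?_⟩
  rcases Nat.eq_zero_or_pos i with rfl | hi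
  · refine ⟨⟨(M : K) ^ j * x, hx⟩, ?_, fun q hq => ?_⟩
    · show (M : K) ^ j * x = _
      rw [coeff_zero_C]
      simp
    · rw [Nat.zero_div, Nat.zero_sub, pow_zero]
      exact one_dvd _
  · refine ⟨0, ?_, fun q hq => dvd_zero _⟩
    rw [coeff_C, if_neg hi.ne', mul_zero, map_zero]

theorem pd_sc {M : ℕ} {Q : Set ℕ} {k : ℕ} {f : K⟦X⟧} (hf : PD K M Q k f) {x : K} {j : ℕ}
    (hx : IsIntegral ℤ ((M : K) ^ j * x)) : PD K M Q k (sc x f) := by
  obtain ⟨B, h1⟩ := hf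
  obtain ⟨y, hy⟩ : ∃ y : 𝓞 K, algebraMap (𝓞 K) K y = (M : K) ^ j * x := ⟨⟨_, hx⟩, rfl⟩
  refine ⟨B + j, fun i => ?_⟩
  obtain ⟨b1, hb1, hd1⟩ := h1 i
  refine ⟨(M : 𝓞 K) ^ j * y ^ i * b1, ?_, fun q hq => (hd1 q hq).mul_left _⟩
  rw [map_mul, map_mul, map_pow, map_pow, map_natCast, hy, hb1, sc, coeff_mk, mul_pow, ← pow_mul, add_mul, pow_add]
  ring

end H55L
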