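import Mathlib
import Pool.Agent.Lib.H47E.Defs

/-! # H55L: denominators -/

open NumberField PowerSeries

namespace H55L

open H47E

section den

open Classical in
/-- the exponent of q in d' -/
noncomputable def ex (Q : Set ℕ) (k i q : ℕ) : ℕ :=
  if q ∈ Q then k + padicValNat q (i / q).factorial else padicValNat q i.factorial

/-- the denominators -/
noncomputable def dd (Q : Set ℕ) (k i : ℕ) : ℕ := ∏ q ∈ (Finset.range (i + 1)).filter Nat.Prime, q ^ ex Q k i q

open Classical in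
/-- the product of the q^f(q), q in Q, q ≤ i -/
noncomputable def QP (Q : Set ℕ) (i : ℕ) (f : ℕ → ℕ) : ℕ := ∏ q ∈ (Finset.range (i + 1)).filter (fun q => q ∈ Q), q ^ f q

variable {Q : Set ℕ} (hQ : ∀ q ∈ Q, q.Prime) (k : ℕ)

theorem fact_eq (i : ℕ) : i.factorial = ∏ q ∈ (Finset.range (i + 1)).filter Nat.Prime, q ^ padicValNat q i.factorial := by
  conv_lhs => rw [← Nat.prod_pow_prime_padicValNat i.factorial (Nat.factorial_ne_zero i) (i.factorial + 1) (Nat.lt_succ_self _)]
  symm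
  refine Finset.prod_subset ?_ ?_
  · intro q hq
    rw [Finset.mem_filter, Finset.mem_range] at hq ⊢
    exact ⟨by have := Nat.self_le_factorial i; omega, hq.2⟩
  · intro q hq hq'
    rw [Finset.mem_filter, Finset.mem_range] at hq hq'
    have hqi : ¬ q ∣ i.factorial := by
      intro h
      exact hq' ⟨by have := (hq.2.dvd_factorial).1 h; omega, hq.2⟩
    rw [padicValNat.eq_zero_of_not_dvd hqi, pow_zero]

include hQ in
theorem QP_eq (i : ℕ) (f : ℕ → ℕ) : QP Q i f =
    ∏ q ∈ (Finset.range (i + 1)).filter Nat.Prime, q ^ (open Classical in if q ∈ Q then f q else 0) := by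
  classical
  unfold QP
  have h1 : ∀ q ∈ (Finset.range (i + 1)).filter Nat.Prime, q ^ (if q ∈ Q then f q else 0) = if q ∈ Q then q ^ f q else 1 := by
    intro q _
    split_ifs
    · rfl
    · rw [pow_zero]
  rw [Finset.prod_congr rfl h1, ← Finset.prod_filter]
  refine Finset.prod_congr ?_ fun _ _ => rfl
  ext q
  simp only [Finset.mem_filter, Finset.mem_range]
  exact ⟨fun h => ⟨⟨h.1, hQ q h.2⟩, h.2⟩, fun h => ⟨h.1.1, h.2⟩⟩

theorem val_fact {q : ℕ} (hq : q.Prime) (i : ℕ) : padicValNat q i.factorial = i / q + padicValNat q (i / q).factorial := by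
  haveI : Fact q.Prime := ⟨hq⟩
  rw [← padicValNat_mul_div_factorial, padicValNat_factorial_mul, add_comm]

include hQ in
/-- d' * prod q^(i/q) = i! * prod q^k. -/
theorem dd_mul (i : ℕ) : dd Q k i * QP Q i (fun q => i / q) = i.factorial * QP Q i (fun _ => k) := by
  classical
  rw [QP_eq hQ, QP_eq hQ, fact_eq i]
  unfold dd
  rw [← Finset.prod_mul_distrib, ← Finset.prod_mul_distrib]
  refine Finset.prod_congr rfl fun q hq => ?_
  rw [Finset.mem_filter] at hq
  rw [← pow_add, ← pow_add]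
  congr 1
  unfold ex
  split_ifs
  · rw [val_fact hq.2 i]
    ring
  · rfl

theorem dd_pos (i : ℕ) : 0 < dd Q k i := by
  unfold dd
  refine Finset.prod_pos fun q hq => ?_
  rw [Finset.mem_filter] at hq
  exact pow_pos hq.2.pos _

include hQ in
theorem QP_pos (i : ℕ) (f : ℕ → ℕ) : 0 < QP Q i f := by
  classical
  unfold QP
  refine Finset.prod_pos fun q hq => ?_
  rw [Finset.mem_filter] at hq
  exact pow_pos (hQ q hq.2).pos _

theorem val_mono {q : ℕ} (hq : q.Prime) {i j : ℕ} (h : i ≤ j) : padicValNat q i.factorial ≤ padicValNat q j.factorial := by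
  haveI : Fact q.Prime := ⟨hq⟩
  have h1 : i.factorial ∣ j.factorial := Nat.factorial_dvd_factorial h
  exact (padicValNat_dvd_iff_le (Nat.factorial_ne_zero j)).1 (pow_padicValNat_dvd.trans h1)

theorem dd_dvd {i j : ℕ} (h : i ≤ j) : dd Q k i ∣ dd Q k j := by
  classical
  unfold dd
  refine (Finset.prod_dvd_prod_of_dvd _ (fun q => q ^ ex Q k j q) fun q hq => ?_).trans (Finset.prod_dvd_prod_of_subset _ _ _ ?_)
  · rw [Finset.mem_filter] at hq
    refine pow_dvd_pow _ ?_
    unfold ex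
    split_ifs
    · exact Nat.add_le_add_left (val_mono hq.2 (Nat.div_le_div_right h)) _
    · exact val_mono hq.2 h
  · intro q hq
    rw [Finset.mem_filter, Finset.mem_range] at hq ⊢
    exact ⟨by omega, hq.2⟩

include hQ in
/-- d' * prod q^(i/q - k) is a multiple of i!. -/
theorem fact_dvd (i : ℕ) : i.factorial ∣ dd Q k i * QP Q i (fun q => i / q - k) := by
  classical
  rw [QP_eq hQ, fact_eq i]
  unfold dd
  rw [← Finset.prod_mul_distrib]
  refine Finset.prod_dvd_prod_of_dvd _ _ fun q hq => ?_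
  rw [Finset.mem_filter] at hq
  rw [← pow_add]
  refine pow_dvd_pow _ ?_
  unfold ex
  split_ifs
  · rw [val_fact hq.2 i]
    omega
  · exact Nat.le_add_right _ _

variable {K : Type} [Field K] [NumberField K]

include hQ in
theorem QP_dvd (i : ℕ) (f : ℕ → ℕ) (b : 𝓞 K) (h : ∀ q ∈ Q, (q : 𝓞 K) ^ f q ∣ b) : (QP Q i f : 𝓞 K) ∣ b := by
  classical
  unfold QP
  rw [Nat.cast_prod]
  refine Finset.prod_dvd_of_coprime ?_ fun q hq => ?_
  · intro q hq r hr hqr
    simp only [Finset.coe_filter, Finset.mem_range, Set.mem_ofPred_eq] at hq hr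
    show IsCoprime ((q ^ f q : ℕ) : 𝓞 K) ((r ^ f r : ℕ) : 𝓞 K)
    have h1 : Nat.Coprime (q ^ f q) (r ^ f r) := Nat.Coprime.pow _ _ ((Nat.coprime_primes (hQ q hq.2) (hQ r hr.2)).2 hqr)
    exact Nat.Coprime.cast h1
  · rw [Finset.mem_filter] at hq
    push_cast
    exact h q hq.2

/-- integrality -/
theorem integral {M B i : ℕ} (hQ : ∀ q ∈ Q, q.Prime) {x : K} {b : 𝓞 K}
    (hb : algebraMap (𝓞 K) K b = (M : K) ^ (B * (i + 1)) * (i.factorial : K) * x) (hd : ∀ q ∈ Q, (q : 𝓞 K) ^ (i / q - k) ∣ b) :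
    IsIntegral ℤ (((M ^ (B * (i + 1)) * dd Q k i : ℕ) : K) * x) := by
  obtain ⟨β, hβ⟩ := QP_dvd hQ i (fun q => i / q - k) b hd
  obtain ⟨n, hn⟩ := fact_dvd hQ k i
  have hP0 : ((QP Q i (fun q => i / q - k) : ℕ) : K) ≠ 0 := Nat.cast_ne_zero.2 (QP_pos hQ i _).ne'
  have h1 : ((M ^ (B * (i + 1)) * dd Q k i : ℕ) : K) * x = algebraMap (𝓞 K) K ((n : 𝓞 K) * β) := by
    apply mul_right_cancel₀ hP0
    have h2 : ((dd Q k i : ℕ) : K) * ((QP Q i (fun q => i / q - k) : ℕ) : K) = (i.factorial : K) * (n : K) := by exact_mod_cast hn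
    rw [hβ, map_mul, map_natCast] at hb
    rw [map_mul, map_natCast]
    push_cast
    linear_combination (M : K) ^ (B * (i + 1)) * x * h2 - (n : K) * hb
  rw [h1]
  exact RingOfIntegers.isIntegral_coe _

end den

section growth

variable {Q : Set ℕ}

open Classical in
theorem log_QP (hQ : ∀ q ∈ Q, q.Prime) (i : ℕ) (f : ℕ → ℕ) :
    Real.log (QP Q i f) = ∑ q ∈ (Finset.range (i + 1)).filter (fun q => q ∈ Q), (f q : ℝ) * Real.log q := by
  unfold QP
  rw [Nat.cast_prod, Real.log_prod]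
  · refine Finset.sum_congr rfl fun q hq => ?_
    rw [Nat.cast_pow, Real.log_pow]
  · intro q hq
    rw [Finset.mem_filter] at hq
    exact Nat.cast_ne_zero.2 (pow_pos (hQ q hq.2).pos _).ne'

open Classical in
theorem sum_log_le (hQ : ∀ q ∈ Q, q.Prime) (i : ℕ) :
    ∑ q ∈ (Finset.range (i + 1)).filter (fun q => q ∈ Q), Real.log q ≤ i * Real.log 4 := by
  have h1 : ∑ q ∈ (Finset.range (i + 1)).filter (fun q => q ∈ Q), Real.log q ≤
      ∑ q ∈ (Finset.range (i + 1)).filter Nat.Prime, Real.log q := by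
    refine Finset.sum_le_sum_of_subset_of_nonneg ?_ ?_
    · intro q hq
      rw [Finset.mem_filter] at hq ⊢
      exact ⟨hq.1, hQ q hq.2⟩
    · intro q hq _
      exact Real.log_natCast_nonneg q
  refine h1.trans ?_
  have h2 : ∑ q ∈ (Finset.range (i + 1)).filter Nat.Prime, Real.log q = Real.log (primorial i) := by
    unfold primorial
    rw [Nat.cast_prod, Real.log_prod]
    intro q hq
    rw [Finset.mem_filter] at hq
    exact Nat.cast_ne_zero.2 hq.2.ne_zero
  rw [h2]
  have h3 : ((primorial i : ℕ) : ℝ) ≤ 4 ^ i := by exact_mod_cast primorial_le_four_pow i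
  have h4 : (0 : ℝ) < primorial i := by exact_mod_cast primorial_pos i
  calc Real.log (primorial i) ≤ Real.log (4 ^ i) := Real.log_le_log h4 h3
    _ = i * Real.log 4 := Real.log_pow _ _

theorem log_dd (hQ : Half Q) (k : ℕ) (ε : ℝ) (hε : 0 < ε) : ∃ B : ℝ, ∀ i : ℕ,
    Real.log (dd Q k i) ≤ (1 / 2 + ε) * i * Real.log (i + 1) + B * (i + 1) := by
  classical
  obtain ⟨hp, hh⟩ := hQ
  obtain ⟨B, hB⟩ := hh ε hε
  refine ⟨|B| + (k + 1) * Real.log 4, fun i => ?_⟩
  have hl4 : 0 ≤ Real.log 4 := Real.log_nonneg (by norm_num)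
  rcases Nat.eq_zero_or_pos i with rfl | hi
  · have h1 : dd Q k 0 = 1 := by
      unfold dd
      refine Finset.prod_eq_one fun q hq => ?_
      rw [Finset.mem_filter, Finset.mem_range] at hq
      exact absurd hq.2.pos (by omega)
    rw [h1, Nat.cast_one, Real.log_one]
    positivity
  have h1 := dd_mul hp k i
  have h2 : Real.log (dd Q k i) + Real.log (QP Q i (fun q => i / q)) = Real.log i.factorial + Real.log (QP Q i (fun _ => k)) := by
    rw [← Real.log_mul, ← Real.log_mul]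
    · exact_mod_cast congrArg (fun n : ℕ => Real.log (n : ℝ)) h1
    · exact_mod_cast Nat.factorial_ne_zero i
    · exact_mod_cast (QP_pos hp i _).ne'
    · exact_mod_cast (dd_pos k i).ne'
    · exact_mod_cast (QP_pos hp i _).ne'
  rw [log_QP hp, log_QP hp, ← Finset.mul_sum] at h2
  obtain ⟨θ, hθ⟩ : ∃ θ, θ = ∑ q ∈ (Finset.range (i + 1)).filter (fun q => q ∈ Q), Real.log q := ⟨_, rfl⟩
  have hθ1 : θ ≤ i * Real.log 4 := by rw [hθ]; exact sum_log_le hp i
  have h3 : (i : ℝ) * ∑ q ∈ (Finset.range (i + 1)).filter (fun q => q ∈ Q), Real.log q / q - θ ≤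
      ∑ q ∈ (Finset.range (i + 1)).filter (fun q => q ∈ Q), ((i / q : ℕ) : ℝ) * Real.log q := by
    rw [hθ, Finset.mul_sum, ← Finset.sum_sub_distrib]
    refine Finset.sum_le_sum fun q hq => ?_
    rw [Finset.mem_filter] at hq
    have hq0 : (0 : ℝ) < q := by exact_mod_cast (hp q hq.2).pos
    have h4 : (i : ℝ) / q - 1 ≤ ((i / q : ℕ) : ℝ) := by
      have h5 : i < q * (i / q + 1) := Nat.lt_mul_div_succ i (hp q hq.2).pos
      have h6 : (i : ℝ) < q * ((i / q : ℕ) + 1) := by exact_mod_cast h5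
      rw [sub_le_iff_le_add, div_le_iff₀ hq0]
      linarith
    have h7 : 0 ≤ Real.log q := Real.log_natCast_nonneg q
    calc (i : ℝ) * (Real.log q / q) - Real.log q = ((i : ℝ) / q - 1) * Real.log q := by ring
      _ ≤ _ := mul_le_mul_of_nonneg_right h4 h7
  have h4 := hB i hi
  have h5 : Real.log i.factorial ≤ i * Real.log i := by
    rw [← Real.log_pow]
    refine Real.log_le_log (by exact_mod_cast Nat.factorial_pos i) (by exact_mod_cast Nat.factorial_le_pow i)
  have hi0 : (0 : ℝ) < i := by exact_mod_cast hi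
  have h6 : (i : ℝ) * ((1 / 2 - ε) * Real.log i - B) ≤ i * ∑ q ∈ (Finset.range (i + 1)).filter (fun q => q ∈ Q), Real.log q / q :=
    mul_le_mul_of_nonneg_left h4 hi0.le
  rw [← hθ] at h2
  have h7 : Real.log i ≤ Real.log (i + 1) := Real.log_le_log hi0 (by linarith)
  have h8 : (1 / 2 + ε) * i * Real.log i ≤ (1 / 2 + ε) * i * Real.log (i + 1) := mul_le_mul_of_nonneg_left h7 (by positivity)
  have h9 : i * B ≤ (i + 1) * |B| := by
    calc i * B ≤ i * |B| := mul_le_mul_of_nonneg_left (le_abs_self B) hi0.le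
      _ ≤ _ := mul_le_mul_of_nonneg_right (by linarith) (abs_nonneg B)
  have h10 : (k : ℝ) * θ ≤ k * (i * Real.log 4) := mul_le_mul_of_nonneg_left hθ1 (by positivity)
  have h11 : (0 : ℝ) ≤ (k + 1) * Real.log 4 := by positivity
  nlinarith

end growth

section final

variable {K : Type} [Field K] [NumberField K]

theorem pd_dens {M : ℕ} (hM : 0 < M) {Q : Set ℕ} (hQ : Half Q) (k : ℕ) {ι : Type} [Finite ι] (f : ι → K⟦X⟧)
    (hf : ∀ i, PD K M Q k (f i)) : ∃ d : ℕ → ℕ, Dens d ∧ ∀ i, HasDen K d (f i) := by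
  classical
  haveI := Fintype.ofFinite ι
  choose B hB using hf
  obtain ⟨BB, hBB⟩ : ∃ BB : ℕ, BB = ∑ j, B j := ⟨_, rfl⟩
  have hle : ∀ j, B j ≤ BB := fun j => by rw [hBB]; exact Finset.single_le_sum (fun _ _ => Nat.zero_le _) (Finset.mem_univ j)
  refine ⟨fun i => M ^ (BB * (i + 1)) * dd Q k i, ⟨fun i => ?_, fun i j hij => ?_, fun ε hε => ?_⟩, fun j i => ?_⟩
  · exact Nat.mul_pos (pow_pos hM _) (dd_pos k i)
  · exact mul_dvd_mul (pow_dvd_pow _ (Nat.mul_le_mul_left _ (by omega))) (dd_dvd k hij)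
  · obtain ⟨C, hC⟩ := log_dd hQ k ε hε
    refine ⟨C + BB * Real.log M, fun i => ?_⟩
    have h1 := hC i
    rw [Nat.cast_mul, Real.log_mul (by positivity) (by exact_mod_cast (dd_pos k i).ne'), Nat.cast_pow, Real.log_pow]
    push_cast
    linarith
  · obtain ⟨b, hb, hd⟩ := hB j i
    refine integral k (B := BB) (b := (M : 𝓞 K) ^ ((BB - B j) * (i + 1)) * b) hQ.1 ?_ fun q hq => (hd q hq).mul_left _
    rw [map_mul, map_pow, map_natCast, hb, ← mul_assoc, ← mul_assoc, ← pow_add, ← add_mul, Nat.sub_add_cancel (hle j)]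

end final

end H55L
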