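import Mathlib
import Pool.Agent.Lib.PNT.PNT
import Pool.Agent.Lib.H47E.Defs

/-! # H55L: half of the primes are inert (Mertens form) -/

open NumberField Filter Topology NumberTheorySymbols

namespace H55L

section jac

theorem J_prime {p k : ℕ} (hp : p.Prime) (hk : 0 < k) : jacobiSym (p : ℤ) (4 * p * k - 1) = 1 := by
  have hpk : 0 < p * k := Nat.mul_pos hp.pos hk
  obtain ⟨n, hn⟩ : ∃ n, n = 4 * p * k - 1 := ⟨_, rfl⟩
  have hn1 : n + 1 = 4 * (p * k) := by rw [hn, mul_assoc]; omega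
  have hodd : Odd n := by
    rw [Nat.odd_iff]
    omega
  have hn3 : n % 4 = 3 := by omega
  rw [← hn]
  rcases hp.eq_two_or_odd' with h2 | h2
  · rw [h2] at hn1 ⊢
    have h8 : n % 8 = 7 := by omega
    rw [show ((2 : ℕ) : ℤ) = 2 by norm_num, jacobiSym.at_two hodd, ZMod.χ₈_nat_mod_eight, h8]
    decide
  · haveI : Fact p.Prime := ⟨hp⟩
    have hm : jacobiSym (n : ℤ) p = jacobiSym (-1) p := by
      apply jacobiSym.mod_left'
      have : ((n : ℤ)) = -1 + p * (4 * k) := by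
        have : (n : ℤ) + 1 = 4 * (p * k) := by exact_mod_cast hn1
        linarith
      rw [this, Int.add_mul_emod_self_left]
    have hneg := jacobiSym.at_neg_one h2
    have h4 : p % 4 = 1 ∨ p % 4 = 3 := by
      have := Nat.odd_iff.1 h2
      omega
    rcases h4 with h4 | h4
    · rw [jacobiSym.quadratic_reciprocity_one_mod_four h4 hodd, hm, hneg, ZMod.χ₄_nat_one_mod_four h4]
    · rw [jacobiSym.quadratic_reciprocity_three_mod_four h4 hn3, hm, hneg, ZMod.χ₄_nat_three_mod_four h4]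
      norm_num

theorem J_pos (a : ℕ) : 0 < a → ∀ k : ℕ, 0 < k → jacobiSym (a : ℤ) (4 * a * k - 1) = 1 := by
  induction a using Nat.recOnMul with
  | zero => intro h; exact absurd h (lt_irrefl _)
  | one => intro _ k _; rw [Nat.cast_one, jacobiSym.one_left]
  | prime p hp => intro _ k hk; exact J_prime hp hk
  | mul a b ha hb =>
    intro hab k hk
    have ha0 : 0 < a := Nat.pos_of_ne_zero (by rintro rfl; simp at hab)
    have hb0 : 0 < b := Nat.pos_of_ne_zero (by rintro rfl; simp at hab)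
    rw [Nat.cast_mul, jacobiSym.mul_left]
    have h1 := ha ha0 (b * k) (Nat.mul_pos hb0 hk)
    have h2 := hb hb0 (a * k) (Nat.mul_pos ha0 hk)
    rw [show 4 * a * (b * k) - 1 = 4 * (a * b) * k - 1 by congr 1; ring] at h1
    rw [show 4 * b * (a * k) - 1 = 4 * (a * b) * k - 1 by congr 1; ring] at h2
    rw [h1, h2, one_mul]

theorem J_neg {Δ : ℤ} (hΔ : Δ < 0) : jacobiSym Δ (4 * Δ.natAbs - 1) = -1 := by
  have h0 : 0 < Δ.natAbs := Int.natAbs_pos.2 hΔ.ne
  have h1 : Δ = -(Δ.natAbs : ℤ) := by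
    rw [Int.ofNat_natAbs_of_nonpos hΔ.le, neg_neg]
  have hodd : Odd (4 * Δ.natAbs - 1) := by
    rw [Nat.odd_iff]
    omega
  have h3 : (4 * Δ.natAbs - 1) % 4 = 3 := by omega
  have h4 := J_pos Δ.natAbs h0 1 Nat.one_pos
  rw [mul_one] at h4
  conv_lhs => rw [h1]
  rw [Int.natAbs_neg, Int.natAbs_natCast, jacobiSym.neg _ hodd, h4, ZMod.χ₄_nat_three_mod_four h3, mul_one]

/-- multiplication by -1 -/
theorem J_flip {Δ : ℤ} (hΔ : Δ < 0) {r : ℕ} (hr : Odd r) :
    jacobiSym Δ ((r * (4 * Δ.natAbs - 1)) % (4 * Δ.natAbs)) = - jacobiSym Δ r := by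
  have h0 : 0 < Δ.natAbs := Int.natAbs_pos.2 hΔ.ne
  have hodd : Odd (4 * Δ.natAbs - 1) := by
    rw [Nat.odd_iff]
    omega
  rw [← jacobiSym.mod_right Δ (hr.mul hodd), jacobiSym.mul_right' Δ hr.pos.ne' hodd.pos.ne', J_neg hΔ, mul_neg_one]

end jac

section units

variable {Δ : ℤ}

theorem card_neg (hΔ : Δ < 0) [NeZero (4 * Δ.natAbs)] :
    2 * ((Finset.univ : Finset (ZMod (4 * Δ.natAbs))ˣ).filter
      (fun u : (ZMod (4 * Δ.natAbs))ˣ => jacobiSym Δ (u : ZMod (4 * Δ.natAbs)).val = -1)).card = (4 * Δ.natAbs).totient := by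
  obtain ⟨m, hm⟩ : ∃ m, m = 4 * Δ.natAbs := ⟨_, rfl⟩
  have h0 : 0 < Δ.natAbs := Int.natAbs_pos.2 hΔ.ne
  have hval : ∀ u : (ZMod (4 * Δ.natAbs))ˣ, Nat.Coprime (u : ZMod (4 * Δ.natAbs)).val (4 * Δ.natAbs) := fun u => ZMod.val_coe_unit_coprime u
  have hodd : ∀ u : (ZMod (4 * Δ.natAbs))ˣ, Odd (u : ZMod (4 * Δ.natAbs)).val := by
    intro u
    rw [← Nat.coprime_two_right]
    exact (hval u).coprime_dvd_right ⟨2 * Δ.natAbs, by ring⟩
  have hflip : ∀ u : (ZMod (4 * Δ.natAbs))ˣ, jacobiSym Δ ((-u : (ZMod (4 * Δ.natAbs))ˣ) : ZMod (4 * Δ.natAbs)).val =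
      - jacobiSym Δ (u : ZMod (4 * Δ.natAbs)).val := by
    intro u
    rw [← J_flip hΔ (hodd u)]
    congr 1
    rw [← ZMod.val_natCast, Units.val_neg]
    congr 1
    rw [Nat.cast_mul, Nat.cast_sub (by omega), ZMod.natCast_self, Nat.cast_one, ZMod.natCast_zmod_val]
    ring
  have hpm : ∀ u : (ZMod (4 * Δ.natAbs))ˣ, jacobiSym Δ (u : ZMod (4 * Δ.natAbs)).val = 1 ∨
      jacobiSym Δ (u : ZMod (4 * Δ.natAbs)).val = -1 := by
    intro u
    apply jacobiSym.eq_one_or_neg_one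
    rw [Int.gcd_eq_natAbs, Int.natAbs_natCast]
    exact ((hval u).coprime_dvd_right ⟨4, by ring⟩).symm
  have hbij : ((Finset.univ : Finset (ZMod (4 * Δ.natAbs))ˣ).filter (fun u : (ZMod (4 * Δ.natAbs))ˣ => jacobiSym Δ (u : ZMod (4 * Δ.natAbs)).val = -1)).card =
      ((Finset.univ : Finset (ZMod (4 * Δ.natAbs))ˣ).filter (fun u : (ZMod (4 * Δ.natAbs))ˣ => ¬ jacobiSym Δ (u : ZMod (4 * Δ.natAbs)).val = -1)).card := by
    refine Finset.card_bij (fun u _ => -u) ?_ ?_ ?_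
    · intro u hu
      rw [Finset.mem_filter] at hu ⊢
      refine ⟨Finset.mem_univ _, ?_⟩
      rw [hflip, hu.2]
      norm_num
    · intro u _ w _ h
      exact neg_injective h
    · intro w hw
      rw [Finset.mem_filter] at hw
      refine ⟨-w, ?_, neg_neg w⟩
      rw [Finset.mem_filter]
      refine ⟨Finset.mem_univ _, ?_⟩
      rw [hflip, (hpm w).resolve_right hw.2]
  have hsum := Finset.card_filter_add_card_filter_not (s := (Finset.univ : Finset (ZMod (4 * Δ.natAbs))ˣ))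
    (fun u : (ZMod (4 * Δ.natAbs))ˣ => jacobiSym Δ (u : ZMod (4 * Δ.natAbs)).val = -1)
  rw [Finset.card_univ, ZMod.card_units_eq_totient] at hsum
  omega

end units

section abel

theorem abel (a : ℕ → ℝ) (ha0 : a 0 = 0) (ha : ∀ n, 0 ≤ a n) (κ C : ℝ) (hκ : 0 ≤ κ)
    (hT : ∀ n : ℕ, κ * n - C ≤ ∑ j ∈ Finset.range (n + 1), a j) (N : ℕ) :
    κ * (Real.log (N + 1) - 1) - C ≤ ∑ j ∈ Finset.range (N + 1), a j / j := by
  have hC : 0 ≤ C := by
    have := hT 0
    simp [ha0] at this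
    linarith
  have key : ∀ N : ℕ, (∑ j ∈ Finset.range (N + 1), a j) / (N + 1) + κ * ((harmonic (N + 1) : ℚ) - 1) - C * (1 - 1 / (N + 1)) ≤
      ∑ j ∈ Finset.range (N + 1), a j / j := by
    intro N
    induction N with
    | zero => simp [ha0]
    | succ N ih =>
      rw [Finset.sum_range_succ (fun j => a j / j)]
      have h1 := Finset.sum_range_succ a (N + 1)
      have h2 := hT (N + 1)
      obtain ⟨T, hTT⟩ : ∃ T, T = ∑ j ∈ Finset.range (N + 1), a j := ⟨_, rfl⟩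
      obtain ⟨T', hTT'⟩ : ∃ T', T' = ∑ j ∈ Finset.range (N + 1 + 1), a j := ⟨_, rfl⟩
      rw [← hTT] at ih h1
      rw [← hTT'] at h1 h2 ⊢
      have h3 : ((harmonic (N + 1 + 1) : ℚ) : ℝ) = (harmonic (N + 1) : ℚ) + 1 / ((N : ℝ) + 2) := by
        rw [harmonic_succ]
        push_cast
        rw [one_div]
        congr 2
        ring
      have hN1 : (0 : ℝ) < (N : ℝ) + 1 := by positivity
      have hN2 : (0 : ℝ) < (N : ℝ) + 2 := by positivity
      have h4 : a (N + 1) = T' - T := by linarith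
      rw [h3, h4]
      push_cast
      push_cast at h2
      have h5 : T' / ((N : ℝ) + 1 + 1) + κ * (((harmonic (N + 1) : ℚ) : ℝ) + 1 / ((N : ℝ) + 2) - 1) - C * (1 - 1 / ((N : ℝ) + 1 + 1)) =
          (T / ((N : ℝ) + 1) + κ * (((harmonic (N + 1) : ℚ) : ℝ) - 1) - C * (1 - 1 / ((N : ℝ) + 1))) + (T' - T) / ((N : ℝ) + 1) -
            (T' + C - κ * ((N : ℝ) + 1)) / (((N : ℝ) + 1) * ((N : ℝ) + 2)) := by
        rw [show (N : ℝ) + 1 + 1 = (N : ℝ) + 2 by ring]
        field_simp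
        ring
      have h6 : 0 ≤ (T' + C - κ * ((N : ℝ) + 1)) / (((N : ℝ) + 1) * ((N : ℝ) + 2)) :=
        div_nonneg (by linarith) (by positivity)
      rw [h5]
      linarith
  have h1 := key N
  have h2 : 0 ≤ (∑ j ∈ Finset.range (N + 1), a j) / (N + 1) :=
    div_nonneg (Finset.sum_nonneg fun j _ => ha j) (by positivity)
  have h3 : Real.log (N + 1) ≤ ((harmonic (N + 1) : ℚ) : ℝ) := by
    refine le_trans (Real.log_le_log (by positivity) ?_) (log_add_one_le_harmonic (N + 1))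
    push_cast
    linarith
  have h4 : C * (1 - 1 / ((N : ℝ) + 1)) ≤ C := by
    have : 0 ≤ C * (1 / ((N : ℝ) + 1)) := by positivity
    linarith
  have h5 : κ * (Real.log (N + 1) - 1) ≤ κ * (((harmonic (N + 1) : ℚ) : ℝ) - 1) := mul_le_mul_of_nonneg_left (by linarith) hκ
  linarith

open Pool.Agent.Lib.PNT in
/-- Partial summation. -/
theorem mert (P : ℕ → Prop) [DecidablePred P] {δ : ℝ} (h : Tendsto (fun x : ℝ => thetaP P x / x) atTop (𝓝 δ)) (ε : ℝ) (hε : 0 < ε) :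
    ∃ B : ℝ, ∀ N : ℕ, 1 ≤ N → (δ - ε) * Real.log N - B ≤ ∑ q ∈ (Finset.range (N + 1)).filter (fun q => q.Prime ∧ P q), Real.log q / q := by
  rcases lt_or_ge (δ - ε) 0 with hneg | hpos
  · refine ⟨0, fun N hN => ?_⟩
    have h1 : 0 ≤ Real.log N := Real.log_natCast_nonneg N
    have h2 : (δ - ε) * Real.log N ≤ 0 := mul_nonpos_of_nonpos_of_nonneg hneg.le h1
    have h3 : 0 ≤ ∑ q ∈ (Finset.range (N + 1)).filter (fun q => q.Prime ∧ P q), Real.log q / q :=
      Finset.sum_nonneg fun q _ => div_nonneg (Real.log_natCast_nonneg q) (Nat.cast_nonneg q)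
    linarith
  have h1 := h.eventually (lt_mem_nhds (show δ - ε < δ by linarith))
  rw [eventually_atTop] at h1
  obtain ⟨X, hX⟩ := h1
  obtain ⟨a, ha⟩ : ∃ a : ℕ → ℝ, a = fun q => if q.Prime ∧ P q then Real.log q else 0 := ⟨_, rfl⟩
  have hsum : ∀ n : ℕ, ∑ j ∈ Finset.range (n + 1), a j = thetaP P n := by
    intro n
    unfold thetaP
    rw [Nat.floor_natCast, ha, ← Finset.sum_filter]
    refine Finset.sum_congr ?_ fun _ _ => rfl
    ext q
    simp only [Finset.mem_filter, Finset.mem_range, Finset.mem_Ioc]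
    exact ⟨fun h => ⟨⟨h.2.1.pos, by omega⟩, h.2⟩, fun h => ⟨by omega, h.2⟩⟩
  have ha0 : a 0 = 0 := by rw [ha]; simp
  have hann : ∀ n, 0 ≤ a n := by
    intro n
    rw [ha]
    show 0 ≤ if n.Prime ∧ P n then Real.log n else 0
    split_ifs
    · exact Real.log_natCast_nonneg n
    · exact le_rfl
  refine ⟨(δ - ε) * (1 + |X| + 1), fun N hN => ?_⟩
  have h2 := abel a ha0 hann (δ - ε) ((δ - ε) * (|X| + 1)) hpos (fun n => by
    rw [hsum]
    rcases le_or_gt (|X| + 1) (n : ℝ) with h3 | h3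
    · have h4 := hX n (by linarith [le_abs_self X])
      have hn0 : (0 : ℝ) < n := by linarith [abs_nonneg X]
      rw [lt_div_iff₀ hn0] at h4
      have h5 : 0 ≤ (δ - ε) * (|X| + 1) := by positivity
      linarith
    · have h4 : (δ - ε) * n ≤ (δ - ε) * (|X| + 1) := mul_le_mul_of_nonneg_left h3.le hpos
      have h5 := thetaP_nonneg (P := P) (n : ℝ)
      linarith) N
  have h3 : ∑ j ∈ Finset.range (N + 1), a j / j = ∑ q ∈ (Finset.range (N + 1)).filter (fun q => q.Prime ∧ P q), Real.log q / q := by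
    rw [Finset.sum_filter]
    refine Finset.sum_congr rfl fun q _ => ?_
    rw [ha]
    show (if q.Prime ∧ P q then Real.log q else 0) / (q : ℝ) = _
    split_ifs
    · rfl
    · rw [zero_div]
  rw [h3] at h2
  have hN0 : (0 : ℝ) < N := by exact_mod_cast hN
  have h4 : (δ - ε) * Real.log N ≤ (δ - ε) * Real.log (N + 1) := mul_le_mul_of_nonneg_left (Real.log_le_log hN0 (by linarith)) hpos
  linarith

end abel

end H55L
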