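import Mathlib
import Pool.Agent.Lib.H55L.B10
import Pool.Agent.Lib.H55L.B09
import Pool.Agent.Lib.H55L.B08
import Pool.Agent.Lib.H55L.B07

/-! # H55L: the interface theorems of module B -/

open NumberField Filter Topology NumberTheorySymbols PowerSeries

namespace H55L

theorem half_inert {Δ : ℤ} (hΔ : Δ < 0) (M : ℕ) (hM : 0 < M) :
    H47E.Half {q : ℕ | q.Prime ∧ q ≠ 2 ∧ ¬ q ∣ M ∧ jacobiSym Δ q = -1} := by
  classical
  refine ⟨fun q hq => hq.1, fun ε hε => ?_⟩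
  have h0 : 0 < Δ.natAbs := Int.natAbs_pos.2 hΔ.ne
  haveI : NeZero (4 * Δ.natAbs) := ⟨by omega⟩
  obtain ⟨S, hS⟩ : ∃ S : Finset (ZMod (4 * Δ.natAbs))ˣ, S = (Finset.univ : Finset (ZMod (4 * Δ.natAbs))ˣ).filter
      (fun u : (ZMod (4 * Δ.natAbs))ˣ => jacobiSym Δ (u : ZMod (4 * Δ.natAbs)).val = -1) := ⟨_, rfl⟩
  have hcard : 2 * S.card = (4 * Δ.natAbs).totient := by rw [hS]; exact card_neg hΔ
  have hφ : 0 < (4 * Δ.natAbs).totient := Nat.totient_pos.2 (by omega)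
  have hS0 : 0 < S.card := by omega
  have hS0' : (0 : ℝ) < S.card := by exact_mod_cast hS0
  have hB : ∀ u : (ZMod (4 * Δ.natAbs))ˣ, ∃ B : ℝ, ∀ N : ℕ, 1 ≤ N →
      (((4 * Δ.natAbs).totient : ℝ)⁻¹ - ε / S.card) * Real.log N - B ≤
        ∑ q ∈ (Finset.range (N + 1)).filter (fun q : ℕ => q.Prime ∧ (q : ZMod (4 * Δ.natAbs)) = (u : ZMod (4 * Δ.natAbs))), Real.log q / q :=
    fun u => mert (fun q : ℕ => (q : ZMod (4 * Δ.natAbs)) = (u : ZMod (4 * Δ.natAbs)))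
      (Pool.Agent.Lib.PNT.thetaAP_tendsto u.isUnit) (ε / S.card) (by positivity)
  choose B hB using hB
  refine ⟨∑ u ∈ S, B u + ∑ q ∈ M.divisors, Real.log q / q, fun N hN => ?_⟩
  have h1 : ∑ u ∈ S, ((((4 * Δ.natAbs).totient : ℝ)⁻¹ - ε / S.card) * Real.log N - B u) ≤
      ∑ u ∈ S, ∑ q ∈ (Finset.range (N + 1)).filter (fun q : ℕ => q.Prime ∧ (q : ZMod (4 * Δ.natAbs)) = (u : ZMod (4 * Δ.natAbs))), Real.log q / q :=
    Finset.sum_le_sum fun u _ => hB u N hN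
  rw [Finset.sum_sub_distrib, Finset.sum_const, nsmul_eq_mul] at h1
  have h2 : (S.card : ℝ) * ((((4 * Δ.natAbs).totient : ℝ)⁻¹ - ε / S.card) * Real.log N) = (1 / 2 - ε) * Real.log N := by
    have h3 : ((4 * Δ.natAbs).totient : ℝ) = 2 * S.card := by exact_mod_cast hcard.symm
    rw [h3]
    field_simp
  rw [h2] at h1
  have h3 : ∑ u ∈ S, ∑ q ∈ (Finset.range (N + 1)).filter (fun q : ℕ => q.Prime ∧ (q : ZMod (4 * Δ.natAbs)) = (u : ZMod (4 * Δ.natAbs))),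
      Real.log q / q = ∑ q ∈ S.biUnion (fun u => (Finset.range (N + 1)).filter
        (fun q : ℕ => q.Prime ∧ (q : ZMod (4 * Δ.natAbs)) = (u : ZMod (4 * Δ.natAbs)))), Real.log q / (q : ℝ) := by
    rw [Finset.sum_biUnion]
    intro u _ w _ huw
    rw [Function.onFun, Finset.disjoint_left]
    intro q hq hq'
    rw [Finset.mem_filter] at hq hq'
    apply huw
    exact Units.ext (hq.2.2.symm.trans hq'.2.2)
  have h4 : S.biUnion (fun u => (Finset.range (N + 1)).filter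
        (fun q : ℕ => q.Prime ∧ (q : ZMod (4 * Δ.natAbs)) = (u : ZMod (4 * Δ.natAbs)))) ⊆
      (Finset.range (N + 1)).filter (fun q : ℕ => q ∈ {q : ℕ | q.Prime ∧ q ≠ 2 ∧ ¬ q ∣ M ∧ jacobiSym Δ q = -1}) ∪ M.divisors := by
    intro q hq
    rw [Finset.mem_biUnion] at hq
    obtain ⟨u, hu, hq⟩ := hq
    rw [Finset.mem_filter] at hq
    rw [hS, Finset.mem_filter] at hu
    rw [Finset.mem_union, Finset.mem_filter, Nat.mem_divisors]
    by_cases hqM : q ∣ M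
    · exact Or.inr ⟨hqM, hM.ne'⟩
    · left
      have hval : (u : ZMod (4 * Δ.natAbs)).val = q % (4 * Δ.natAbs) := by rw [← hq.2.2, ZMod.val_natCast]
      have hco := ZMod.val_coe_unit_coprime u
      rw [hval] at hco
      have hodd : Odd q := by
        have h5 : Nat.Coprime (q % (4 * Δ.natAbs)) 2 := hco.coprime_dvd_right ⟨2 * Δ.natAbs, by ring⟩
        rw [Nat.coprime_two_right, Nat.odd_iff] at h5
        rw [Nat.odd_iff, ← h5, Nat.mod_mod_of_dvd _ ⟨2 * Δ.natAbs, by ring⟩]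
      refine ⟨hq.1, hq.2.1, ?_, hqM, ?_⟩
      · rintro rfl
        exact absurd hodd (by decide)
      · rw [jacobiSym.mod_right Δ hodd, ← hval]
        exact hu.2
  have h5 : ∀ q : ℕ, 0 ≤ Real.log q / (q : ℝ) := fun q => div_nonneg (Real.log_natCast_nonneg q) (Nat.cast_nonneg q)
  have h6 := Finset.sum_le_sum_of_subset_of_nonneg h4 (f := fun q : ℕ => Real.log q / (q : ℝ)) (fun q _ _ => h5 q)
  have h7 : ∑ q ∈ (Finset.range (N + 1)).filter (fun q : ℕ => q ∈ {q : ℕ | q.Prime ∧ q ≠ 2 ∧ ¬ q ∣ M ∧ jacobiSym Δ q = -1}) ∪ M.divisors,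
      Real.log q / (q : ℝ) ≤ ∑ q ∈ (Finset.range (N + 1)).filter (fun q : ℕ => q ∈ {q : ℕ | q.Prime ∧ q ≠ 2 ∧ ¬ q ∣ M ∧ jacobiSym Δ q = -1}),
      Real.log q / (q : ℝ) + ∑ q ∈ M.divisors, Real.log q / (q : ℝ) := by
    rw [← Finset.sum_union_inter]
    exact le_add_of_nonneg_right (Finset.sum_nonneg fun q _ => h5 q)
  rw [h3] at h1
  have h8 := le_trans (h1.trans h6) h7
  have h9 : ∀ x y z w : ℝ, x - y ≤ z + w → x - (y + w) ≤ z := fun x y z w h => by linarith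
  have h10 := h9 _ _ _ _ h8
  convert h10

/-- THE INTERFACE THEOREM pd_main. -/
theorem pd_main {K : Type} [Field K] [NumberField K] (a c : 𝓞 K) (D : H47E.CMData K (a : K) (c : K)) (S : H47E.Ser K (a : K) (c : K))
    (M₀ : ℕ) (hM₀ : 0 < M₀) :
    ∃ M : ℕ, 0 < M ∧ M₀ ∣ M ∧ ∃ Q : Set ℕ, H47E.Half Q ∧ H47E.PD K M Q 0 S.t ∧ H47E.PD K M Q 0 S.v ∧ H47E.PD K M Q 1 S.g := by
  obtain ⟨M, hM, h⟩ := exists_good D
  obtain ⟨v, hv⟩ := exists_v a c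
  refine ⟨M₀ * M, Nat.mul_pos hM₀ hM, dvd_mul_right _ _, {q : ℕ | q.Prime ∧ q ≠ 2 ∧ ¬ q ∣ M₀ * M ∧ jacobiSym (D.A₀ ^ 2 - 4 * D.B₀) q = -1},
    half_inert D.disc _ (Nat.mul_pos hM₀ hM), ?_⟩
  exact pd_series S hv _ fun q hq => h q hq.1 hq.2.1 (fun h1 => hq.2.2.1 (h1.mul_left _)) hq.2.2.2 hv

end H55L
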